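import Pool.Agent.H694.ZO.Ext

/-!
# Descent: classes generated over a system of rational classes
-/

open CategoryTheory AlgebraicGeometry TensorProduct

universe u w

namespace Pool.Agent.H694.ZO

open Module
open Pool.Agent.H914 Pool.Agent.H914.VarClass Pool.Agent.H914.VarClass.Obj
  Pool.Agent.H914.WeilCohomology
open Pool.Agent.Y133.Half Pool.Agent.Y121.AH Pool.Agent.R920.MT

variable {k : Type u} [Field k] {𝒱 : VarClass k} {ops : CycleOps 𝒱}

section Base

variable {W : WeilCohomology.{u, 0} ops} {L M : Type} [Field L] [Field M] [Algebra W.K L]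
  [Algebra W.K M] {X P Z : 𝒱.Obj}

lemma corr_ten (l m : L) (a : W.H (P.prod Z)) (b : W.H P) :
    (baseW W L).corr (TT.ten L l a) (TT.ten L m b) = TT.ten L (l * m) (W.corr a b) := by
  rw [corr_apply, corr_apply, TT.bmap_tmul, TT.bmul_tmul, TT.bpush_tmul]

/-- The classes generated over the extended coefficients. -/
lemma gen_base_le (S : Sys W) {x : (baseW W L).H Z}
    (hx : x ∈ gen (S.base L) P Z (PH (baseW W L) P 0)) :
    (show L ⊗[W.K] W.H Z from x) ∈ (gen S P Z (PH W P 0)).baseChange L := by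
  induction hx using Submodule.span_induction with
  | mem x hx =>
    obtain ⟨f, hf, t, ht, rfl⟩ := hx
    obtain ⟨z, hz, rfl⟩ := Sys.mem_Op.1 hf
    refine TT.base_ind (p := S.C (P.prod Z)) (P := fun z =>
      (show L ⊗[W.K] W.H Z from (baseW W L).corr z t) ∈ (gen S P Z (PH W P 0)).baseChange L)
      ?_ ?_ ?_ hz
    · have h : (baseW W L).corr (0 : (baseW W L).H (P.prod Z)) t = 0 := by
        rw [corr_zero]; rfl
      exact h ▸ Submodule.zero_mem _
    · intro x y hx hy
      have h : (baseW W L).corr (x + y) t = (baseW W L).corr x t + (baseW W L).corr y t := by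
        rw [corr_add]; rfl
      exact h ▸ Submodule.add_mem _ hx hy
    · intro l a ha
      refine PH.ind (p := fun t => (show L ⊗[W.K] W.H Z from
        (baseW W L).corr (TT.ten L l a) t) ∈ (gen S P Z (PH W P 0)).baseChange L) ?_ ?_ ?_ ht
      · intro i hi t ht
        refine TT.base_ind (p := W.gr P i) (P := fun t => (show L ⊗[W.K] W.H Z from
          (baseW W L).corr (TT.ten L l a) t) ∈ (gen S P Z (PH W P 0)).baseChange L)
          ?_ ?_ ?_ ht
        · have h : (baseW W L).corr (TT.ten L l a) (0 : (baseW W L).H P) = 0 := map_zero _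
          exact h ▸ Submodule.zero_mem _
        · intro x y hx hy
          have h : (baseW W L).corr (TT.ten L l a) (x + y) =
            (baseW W L).corr (TT.ten L l a) x + (baseW W L).corr (TT.ten L l a) y := map_add _ _ _
          exact h ▸ Submodule.add_mem _ hx hy
        · intro m b hb
          have h := corr_ten (W := W) l m a b
          exact h ▸ TT.ten_mem (l * m) (mem_gen (Sys.Op.corr ha) (PH.of' hi hb))
      · have h : (baseW W L).corr (TT.ten L l a) (0 : (baseW W L).H P) = 0 := map_zero _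
        exact h ▸ Submodule.zero_mem _
      · intro x y hx hy
        have h : (baseW W L).corr (TT.ten L l a) (x + y) =
          (baseW W L).corr (TT.ten L l a) x + (baseW W L).corr (TT.ten L l a) y := map_add _ _ _
        exact h ▸ Submodule.add_mem _ hx hy
  | zero => exact Submodule.zero_mem _
  | add x y _ _ hx hy => exact Submodule.add_mem _ hx hy
  | smul r x _ hx => exact Submodule.smul_mem _ _ hx

/-- Descent of the generation. -/
lemma gen_descend (S : Sys W) {c : W.H Z}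
    (h : em W L c ∈ gen (S.base L) P Z (PH (baseW W L) P 0)) : c ∈ gen S P Z (PH W P 0) :=
  mem_of_em_mem (gen_base_le S h)

variable (τ : L →ₐ[W.K] M) (G : TT.GaloisSystem.{u, 0, w} (baseW W L))

lemma ext_tate {j : ℕ} {x : (baseW W L).H X} (hx : TT.IsTate G X j x) :
    TT.IsTate (extG τ G) X j (psi W τ X x) := by
  obtain ⟨hx, Δ, hΔ, h⟩ := hx
  refine ⟨psi_gr τ hx, Δ, hΔ, fun g hg => ?_⟩
  have h1 := h g hg
  rw [extG_psi, h1, psi_smul, map_pow]
  rfl

lemma ext_sys {x : (baseW W L).H X} (hx : x ∈ (TT.tatePred G).sys.C X) :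
    psi W τ X x ∈ (TT.tatePred (extG τ G)).sys.C X := by
  refine ClassPred.sp_ind (Q := TT.tatePred G)
    (q := fun x => psi W τ X x ∈ (TT.tatePred (extG τ G)).sys.C X) ?_ ?_ ?_ hx
  · intro j x hx
    exact ClassPred.sp_of (Q := TT.tatePred (extG τ G)) (ext_tate τ G hx)
  · rw [map_zero]; exact Submodule.zero_mem _
  · intro x y hx hy
    rw [map_add]; exact Submodule.add_mem _ hx hy

lemma psi_corr (τ' : L →ₐ[W.K] M) (z : (baseW W L).H (P.prod Z)) (t : (baseW W L).H P) :
    psi W τ' Z ((baseW W L).corr z t) = (baseW W M).corr (psi W τ' _ z) (psi W τ' P t) := by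
  rw [corr_apply, corr_apply, psi_push, map_mul, psi_map]

lemma psi_PH (τ' : L →ₐ[W.K] M) {x : (baseW W L).H X} (hx : x ∈ PH (baseW W L) X 0) :
    psi W τ' X x ∈ PH (baseW W M) X 0 := by
  refine PH.ind (p := fun x => psi W τ' X x ∈ PH (baseW W M) X 0) ?_ ?_ ?_ hx
  · intro i hi x hx; exact PH.of' hi (psi_gr τ' hx)
  · rw [map_zero]; exact Submodule.zero_mem _
  · intro x y hx hy; rw [map_add]; exact Submodule.add_mem _ hx hy

lemma psi_ten (τ' : L →ₐ[W.K] M) (l : L) (a : W.H X) :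
    psi W τ' X (TT.ten L l a) = (show (baseW W M).K from τ' l) • em W M a := by
  have h1 : psi W τ' X (TT.ten L l a) = TT.ten M (τ' l) a := psi_tmul τ' l a
  rw [h1]
  exact tmul_eq (W := W) (τ' l) a

/-- The conjugates of generated classes are generated. -/
lemma psi_gen {S : Sys W} (hS : ∀ X, ∀ x ∈ S.C X, em W L x ∈ (TT.tatePred G).sys.C X)
    (τ' : L →ₐ[W.K] M) {x : (baseW W L).H Z}
    (hx : x ∈ gen (S.base L) P Z (PH (baseW W L) P 0)) :
    psi W τ' Z x ∈ gen (TT.tatePred (extG τ G)).sys P Z (PH (baseW W M) P 0) := by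
  induction hx using Submodule.span_induction with
  | mem x hx =>
    obtain ⟨f, hf, t, ht, rfl⟩ := hx
    obtain ⟨z, hz, rfl⟩ := Sys.mem_Op.1 hf
    rw [psi_corr]
    refine mem_gen (Sys.Op.corr ?_) (psi_PH τ' ht)
    refine TT.base_ind (p := S.C (P.prod Z)) (P := fun z => psi W τ' (P.prod Z) z ∈
      (TT.tatePred (extG τ G)).sys.C (P.prod Z)) ?_ ?_ ?_ hz
    · rw [map_zero]; exact Submodule.zero_mem _
    · intro x y hx hy
      rw [map_add]; exact Submodule.add_mem _ hx hy
    · intro l a ha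
      rw [psi_ten]
      refine Submodule.smul_mem _ _ ?_
      rw [← psi_em τ]
      exact ext_sys τ G (hS _ a ha)
  | zero => rw [map_zero]; exact Submodule.zero_mem _
  | add x y _ _ hx hy => rw [map_add]; exact Submodule.add_mem _ hx hy
  | smul r x _ hx => rw [psi_smul]; exact Submodule.smul_mem _ _ hx

lemma psi_xpw (τ' : L →ₐ[W.K] M) (v : (baseW W L).H Z) :
    ∀ m, psi W τ' (pw Z m) (xpw (baseW W L) v m) = xpw (baseW W M) (psi W τ' Z v) m
  | 0 => rfl
  | m + 1 => by
    have h : psi W τ' ((pw Z m).prod Z) (xp (baseW W L) (xpw (baseW W L) v m) v) =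
        xp (baseW W M) (xpw (baseW W M) (psi W τ' Z v) m) (psi W τ' Z v) := by
      rw [xp, map_mul, psi_map, psi_map, psi_xpw τ' v m, xp]
    exact h

/-- The conjugates of generated classes are Tate classes. -/
lemma conj_tate {S : Sys W} (hS : ∀ X, ∀ x ∈ S.C X, em W L x ∈ (TT.tatePred G).sys.C X)
    (τ' : L →ₐ[W.K] M) {j : ℕ} {c : (baseW W L).H Z} (hc : c ∈ (baseW W L).gr Z (2 * j))
    (h : ∀ m, xpw (baseW W L) c m ∈ gen (S.base L) P (pw Z m) (PH (baseW W L) P 0)) :
    TT.IsTate (extG τ G) Z j (psi W τ' Z c) := by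
  refine tate_of_gen (M := PH (baseW W M) P 0) le_rfl (psi_gr τ' hc) fun m => ?_
  rw [← psi_xpw]
  exact psi_gen τ G hS τ' (h m)

lemma em_gen' {S : Sys W} (hS : ∀ X, ∀ x ∈ S.C X, em W L x ∈ (TT.tatePred G).sys.C X)
    {x : W.H Z} (hx : x ∈ gen S P Z (PH W P 0)) :
    em W L x ∈ gen (TT.tatePred G).sys P Z (PH (baseW W L) P 0) := by
  induction hx using Submodule.span_induction with
  | mem x hx =>
    obtain ⟨f, hf, t, ht, rfl⟩ := hx
    obtain ⟨z, hz, rfl⟩ := Sys.mem_Op.1 hf
    rw [← em_corr]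
    exact mem_gen (Sys.Op.corr (hS _ z hz)) (em_PH ht)
  | zero => rw [em_zero]; exact Submodule.zero_mem _
  | add x y _ _ hx hy => rw [em_add]; exact Submodule.add_mem _ hx hy
  | smul r x _ hx => rw [em_smul]; exact Submodule.smul_mem _ _ hx

/-- The generated rational classes are Tate classes. -/
lemma fg_tate {S : Sys W} (hS : ∀ X, ∀ x ∈ S.C X, em W L x ∈ (TT.tatePred G).sys.C X) {j : ℕ}
    {c : W.H Z} (hc : c ∈ W.gr Z (2 * j))
    (h : ∀ m, xpw W c m ∈ gen S P (pw Z m) (PH W P 0)) : TT.IsTate G Z j (em W L c) := by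
  refine tate_of_gen (M := PH (baseW W L) P 0) le_rfl (em_gr hc) fun m => ?_
  rw [← em_xpw]
  exact em_gen' G hS (h m)

end Base

section Hodge

variable {T : HodgeTheory ops} {L : Type} [Field L] [Algebra T.W.K L] {X P Z : 𝒱.Obj}

/-- The generated rational classes are Hodge classes. -/
lemma fg_hodge {S : Sys T.W} (hS : ∀ X, ∀ x ∈ S.C X, gop T X (em T.W ℂ x) = em T.W ℂ x) {j : ℕ}
    {c : T.W.H Z} (hc : c ∈ T.W.gr Z (2 * j))
    (h : ∀ m, xpw T.W c m ∈ gen S P (pw Z m) (PH T.W P 0)) : IsHodge T Z j c := by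
  refine isHodge_of_fix hc ?_
  have h1 := fix_of_rel (rlzEm T) (μ := (gop T P).charpoly) (LinearMap.charpoly_monic _).ne_zero
    hc (v := c) fun m => gen_rel (rlzEm T) hS (LinearMap.aeval_self_charpoly _) (h m)
  rw [rlzEm_apply] at h1
  exact h1

/-- The conjugates of the generated classes are of type `(j, j)`. -/
lemma conj_type {S : Sys T.W} (hS : ∀ X, ∀ x ∈ S.C X, gop T X (em T.W ℂ x) = em T.W ℂ x)
    (τ : L →+* ℂ) {j : ℕ} {c : (baseW T.W L).H Z} (hc : c ∈ (baseW T.W L).gr Z (2 * j))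
    (h : ∀ m, xpw (baseW T.W L) c m ∈ gen (S.base L) P (pw Z m) (PH (baseW T.W L) P 0)) :
    psi T.W (ratAlg T τ) Z c ∈ T.pq Z j j := by
  have h1 : gop T Z ((rlzPsi T τ).E Z c) = (rlzPsi T τ).E Z c := by
    refine fix_of_rel (rlzPsi T τ) (μ := (gop T P).charpoly)
      (LinearMap.charpoly_monic _).ne_zero hc fun m => ?_
    refine gen_rel (rlzPsi T τ) (S := S.base L) ?_ (LinearMap.aeval_self_charpoly _) (h m)
    intro X x hx
    refine TT.base_ind (p := S.C X)
      (P := fun x => gop T X ((rlzPsi T τ).E X x) = (rlzPsi T τ).E X x) ?_ ?_ ?_ hx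
    · rw [map_zero, map_zero]
    · intro x y hx hy; rw [map_add, map_add, hx, hy]
    · intro l a ha
      rw [rlzPsi_apply, psi_ten, map_smul, hS X a ha]
  exact pq_of_fix' ((rlzPsi T τ).gr hc) h1

/-- **Descent.** If all conjugates of a class lie in a subspace, then the class is a linear
combination of rational classes in this subspace. -/
lemma mem_span_sub (τ : L →+* ℂ) {U : Submodule (CW T).K ((CW T).H X)} {w : (baseW T.W L).H X}
    (h : ∀ g : ℂ ≃+* ℂ, psi T.W (ratAlg T (g.toRingHom.comp τ)) X w ∈ U) :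
    w ∈ Submodule.span (baseW T.W L).K {x | ∃ c', em T.W ℂ c' ∈ U ∧ em T.W L c' = x} := by
  classical
  let b := Basis.ofVectorSpace T.W.K L
  have hw0 : ∃ f : (Basis.ofVectorSpaceIndex T.W.K L) →₀ T.W.H X,
      (f.sum fun i m => b i ⊗ₜ[T.W.K] m) = (w : L ⊗[T.W.K] T.W.H X) :=
    TensorProduct.eq_repr_basis_left b w
  obtain ⟨f, hf⟩ := hw0
  have hf' : w = ∑ i ∈ f.support, (show (baseW T.W L).K from b i) • em T.W L (f i) := by
    rw [← hf, Finsupp.sum]
    exact Finset.sum_congr rfl fun i _ => tmul_eq (W := T.W) (b i) (f i)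
  have key : ∀ i ∈ f.support, em T.W ℂ (f i) ∈ U := by
    intro i hi
    by_contra hc
    obtain ⟨φ, hφ, hφp⟩ := Submodule.exists_dual_map_eq_bot_of_notMem hc inferInstance
    apply hφ
    refine aut_indep (indep_basis b τ) _ f.support rfl (fun i => φ (em T.W ℂ (f i))) ?_ i hi
    intro g
    have h1 : φ (psi T.W (ratAlg T (g.toRingHom.comp τ)) X w) = 0 := by
      have h2 := Submodule.mem_map_of_mem (f := φ) (h g)
      rw [hφp, Submodule.mem_bot] at h2
      exact h2
    rw [hf', map_sum, map_sum] at h1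
    refine Eq.trans (Finset.sum_congr rfl fun i _ => ?_) h1
    have h3 : φ (psi T.W (ratAlg T (g.toRingHom.comp τ)) X
        ((show (baseW T.W L).K from b i) • em T.W L (f i))) =
        kap T.W (ratAlg T (g.toRingHom.comp τ)) (show (baseW T.W L).K from b i) *
          φ (em T.W ℂ (f i)) := by
      rw [psi_smul, psi_em, map_smul, smul_eq_mul]
    refine Eq.trans ?_ h3.symm
    exact mul_comm (φ (em T.W ℂ (f i)) : ℂ) (g (τ (b i)))
  rw [hf']
  exact Submodule.sum_mem _ fun i hi =>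
    Submodule.smul_mem _ _ (Submodule.subset_span ⟨_, key i hi, rfl⟩)

/-- **Descent for the generated classes**: they are linear combinations of rational classes which
are both Hodge classes and Tate classes. -/
theorem desc {S : Sys T.W} (hS : ∀ X, ∀ x ∈ S.C X, gop T X (em T.W ℂ x) = em T.W ℂ x)
    (G : TT.GaloisSystem.{u, 0, w} (baseW T.W L))
    (hS' : ∀ X, ∀ x ∈ S.C X, em T.W L x ∈ (TT.tatePred G).sys.C X) (τ : L →+* ℂ) {j : ℕ}
    {c : (baseW T.W L).H Z} (hc : c ∈ (baseW T.W L).gr Z (2 * j))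
    (h : ∀ m, xpw (baseW T.W L) c m ∈ gen (S.base L) P (pw Z m) (PH (baseW T.W L) P 0)) :
    c ∈ Submodule.span (baseW T.W L).K
      {x | ∃ c', (IsHodge T Z j c' ∧ TT.IsTate G Z j (em T.W L c')) ∧ em T.W L c' = x} := by
  let U : Submodule (CW T).K ((CW T).H Z) :=
    { carrier := {y | y ∈ T.pq Z j j ∧ TT.IsTate (extG (ratAlg T τ) G) Z j y}
      add_mem' := fun ha hb => ⟨Submodule.add_mem _ ha.1 hb.1, TT.IsTate.add ha.2 hb.2⟩
      zero_mem' := ⟨Submodule.zero_mem _, TT.IsTate.zero⟩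
      smul_mem' := fun r _ ha => ⟨Submodule.smul_mem _ r ha.1, TT.IsTate.smul r ha.2⟩ }
  have h1 : ∀ g : ℂ ≃+* ℂ, psi T.W (ratAlg T (g.toRingHom.comp τ)) Z c ∈ U := fun g =>
    ⟨conj_type hS _ hc h, conj_tate (ratAlg T τ) G hS' _ hc h⟩
  refine Submodule.span_mono ?_ (mem_span_sub τ h1)
  rintro _ ⟨c', ⟨h2, h3⟩, rfl⟩
  exact ⟨c', ⟨⟨mem_of_em_mem (h3.1 : em T.W ℂ c' ∈ (CW T).gr Z (2 * j)), h2⟩,
    tate_of_ext (ratAlg T τ) G h3⟩, rfl⟩

end Hodge

end Pool.Agent.H694.ZO
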