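import Pool.Agent.H694.ZO.Grow
import Pool.Agent.Y121.AH.Dom

/-!
# The extension of the coefficients of a Galois action
-/

open CategoryTheory AlgebraicGeometry TensorProduct

universe u w

namespace Pool.Agent.H694.ZO

open Module
open Pool.Agent.H914 Pool.Agent.H914.VarClass Pool.Agent.H914.VarClass.Obj
  Pool.Agent.H914.WeilCohomology
open Pool.Agent.Y133.Half Pool.Agent.Y121.AH Pool.Agent.R920.MT

section Alg

variable {K L M A : Type} [Field K] [Field L] [Field M] [Algebra K L] [Algebra K M] [Ring A]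
  [Algebra K A] (τ : L →ₐ[K] M)

/-- The change of the coefficients. -/
noncomputable def phi (A : Type) [Ring A] [Algebra K A] : L ⊗[K] A →ₐ[K] M ⊗[K] A :=
  Algebra.TensorProduct.map τ (AlgHom.id K A)

lemma phi_tmul (l : L) (a : A) : phi τ A (l ⊗ₜ[K] a) = τ l ⊗ₜ[K] a :=
  Algebra.TensorProduct.map_tmul _ _ _ _

lemma phi_smul (l : L) (x : L ⊗[K] A) : phi τ A (l • x) = τ l • phi τ A x := by
  refine tmul_induction (P := fun x => phi τ A (l • x) = τ l • phi τ A x) ?_ ?_ ?_ x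
  · rw [smul_zero, map_zero, smul_zero]
  · intro x y hx hy; rw [smul_add, map_add, map_add, smul_add, hx, hy]
  · intro m a
    rw [TensorProduct.smul_tmul', phi_tmul, phi_tmul, TensorProduct.smul_tmul', smul_eq_mul,
      smul_eq_mul, map_mul]

lemma phi_injective : Function.Injective (phi τ A) := by
  have h1 := Module.Flat.rTensor_preserves_injective_linearMap (M := A) τ.toLinearMap
    τ.toRingHom.injective
  have h2 : ∀ x, phi τ A x = τ.toLinearMap.rTensor A x := by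
    intro x
    refine tmul_induction (P := fun x => phi τ A x = τ.toLinearMap.rTensor A x) ?_ ?_ ?_ x
    · rw [map_zero, map_zero]
    · intro x y hx hy; rw [map_add, map_add, hx, hy]
    · intro m a
      rw [phi_tmul, LinearMap.rTensor_tmul]
      rfl
  intro x y hxy
  rw [h2, h2] at hxy
  exact h1 hxy

/-- The extension of the coefficients of an endomorphism. -/
noncomputable def extM (s : L ⊗[K] A →ₐ[L] L ⊗[K] A) : M ⊗[K] A →ₐ[M] M ⊗[K] A :=
  Algebra.TensorProduct.lift (Algebra.ofId M (M ⊗[K] A))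
    ((phi τ A).comp ((s.restrictScalars K).comp Algebra.TensorProduct.includeRight))
    (fun m a => Algebra.commutes m _)

lemma extM_tmul (s : L ⊗[K] A →ₐ[L] L ⊗[K] A) (m : M) (a : A) :
    extM τ s (m ⊗ₜ[K] a) = m • phi τ A (s ((1 : L) ⊗ₜ[K] a)) := by
  rw [extM, Algebra.TensorProduct.lift_tmul, Algebra.smul_def]
  rfl

lemma extM_phi (s : L ⊗[K] A →ₐ[L] L ⊗[K] A) (x : L ⊗[K] A) :
    extM τ s (phi τ A x) = phi τ A (s x) := by
  refine tmul_induction (P := fun x => extM τ s (phi τ A x) = phi τ A (s x)) ?_ ?_ ?_ x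
  · rw [map_zero, map_zero, map_zero, map_zero]
  · intro x y hx hy; rw [map_add, map_add, map_add, map_add, hx, hy]
  · intro l a
    rw [phi_tmul, extM_tmul, ← phi_smul, ← map_smul, TensorProduct.smul_tmul', smul_eq_mul,
      mul_one]

lemma extM_comp (s t : L ⊗[K] A →ₐ[L] L ⊗[K] A) (x : M ⊗[K] A) :
    extM τ (s.comp t) x = extM τ s (extM τ t x) := by
  refine tmul_induction (P := fun x => extM τ (s.comp t) x = extM τ s (extM τ t x)) ?_ ?_ ?_ x
  · rw [map_zero, map_zero, map_zero]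
  · intro x y hx hy; rw [map_add, map_add, map_add, hx, hy]
  · intro l a
    rw [extM_tmul, extM_tmul, map_smul, extM_phi, AlgHom.comp_apply]

lemma extM_id (x : M ⊗[K] A) : extM τ (AlgHom.id L (L ⊗[K] A)) x = x := by
  refine tmul_induction (P := fun x => extM τ (AlgHom.id L (L ⊗[K] A)) x = x) ?_ ?_ ?_ x
  · rw [map_zero]
  · intro x y hx hy; rw [map_add, hx, hy]
  · intro l a
    rw [extM_tmul, AlgHom.id_apply, phi_tmul, map_one, TensorProduct.smul_tmul', smul_eq_mul,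
      mul_one]

/-- The extension of the coefficients of an automorphism. -/
noncomputable def extE (s : L ⊗[K] A ≃ₐ[L] L ⊗[K] A) : M ⊗[K] A ≃ₐ[M] M ⊗[K] A :=
  AlgEquiv.ofAlgHom (extM τ s.toAlgHom) (extM τ s.symm.toAlgHom)
    (AlgHom.ext fun x => by
      rw [AlgHom.comp_apply, ← extM_comp, AlgHom.id_apply]
      have h : s.toAlgHom.comp s.symm.toAlgHom = AlgHom.id L _ :=
        AlgHom.ext fun y => s.apply_symm_apply y
      rw [h, extM_id])
    (AlgHom.ext fun x => by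
      rw [AlgHom.comp_apply, ← extM_comp, AlgHom.id_apply]
      have h : s.symm.toAlgHom.comp s.toAlgHom = AlgHom.id L _ :=
        AlgHom.ext fun y => s.symm_apply_apply y
      rw [h, extM_id])

lemma extE_apply (s : L ⊗[K] A ≃ₐ[L] L ⊗[K] A) (x : M ⊗[K] A) :
    extE τ s x = extM τ s.toAlgHom x := rfl

lemma extE_tmul (s : L ⊗[K] A ≃ₐ[L] L ⊗[K] A) (m : M) (a : A) :
    extE τ s (m ⊗ₜ[K] a) = m • phi τ A (s ((1 : L) ⊗ₜ[K] a)) := extM_tmul τ s.toAlgHom m a

lemma extE_phi (s : L ⊗[K] A ≃ₐ[L] L ⊗[K] A) (x : L ⊗[K] A) :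
    extE τ s (phi τ A x) = phi τ A (s x) := extM_phi τ s.toAlgHom x

/-- The extension of the coefficients of an action. -/
noncomputable def extHom {H : Type*} [Group H] (ρ : H →* (L ⊗[K] A ≃ₐ[L] L ⊗[K] A)) :
    H →* (M ⊗[K] A ≃ₐ[M] M ⊗[K] A) :=
  MonoidHom.mk' (fun g => extE τ (ρ g)) fun g h => AlgEquiv.ext fun x => by
    rw [map_mul ρ]
    exact extM_comp τ (ρ g).toAlgHom (ρ h).toAlgHom x

end Alg

variable {k : Type u} [Field k] {𝒱 : VarClass k} {ops : CycleOps 𝒱}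

section Ext

variable {W : WeilCohomology.{u, 0} ops} {L M : Type} [Field L] [Field M] [Algebra W.K L]
  [Algebra W.K M] (τ : L →ₐ[W.K] M) (G : TT.GaloisSystem.{u, 0, w} (baseW W L)) {X Y : 𝒱.Obj}

lemma psi_phi (x : (baseW W L).H X) : psi W τ X x = phi τ (W.H X) x := rfl

lemma bm_tmul (f : X ⟶ Y) (l : L) (a : W.H Y) :
    mapBase L (W.map f) (l ⊗ₜ[W.K] a) = l ⊗ₜ[W.K] (W.map f a) :=
  Algebra.TensorProduct.map_tmul _ _ _ _

/-- The extension of the coefficients of a Galois action. -/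
noncomputable def extG : TT.GaloisSystem.{u, 0, w} (baseW W M) where
  Γ := G.Γ
  χ := (Units.map (τ : L →* M)).comp (G.χ : G.Γ →* Lˣ)
  dom := G.dom
  ρ X := extHom τ (G.ρ X : G.dom X →* (L ⊗[W.K] W.H X ≃ₐ[L] L ⊗[W.K] W.H X))
  acts X :=
    { finite := (G.acts X).finite
      gr_mem := by
        intro g i a ha
        refine base_induction (P := fun x : M ⊗[W.K] W.H X =>
          (show (baseW W M).H X from extHom τ
            (G.ρ X : G.dom X →* (L ⊗[W.K] W.H X ≃ₐ[L] L ⊗[W.K] W.H X)) g x) ∈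
            (baseW W M).gr X i) ?_ ?_ ?_ ha
        · have h : extHom τ (G.ρ X : G.dom X →* (L ⊗[W.K] W.H X ≃ₐ[L] L ⊗[W.K] W.H X)) g
            (0 : M ⊗[W.K] W.H X) = 0 := map_zero _
          exact h ▸ Submodule.zero_mem _
        · intro x y hx hy
          have h : extHom τ (G.ρ X : G.dom X →* (L ⊗[W.K] W.H X ≃ₐ[L] L ⊗[W.K] W.H X)) g
            (x + y) = extHom τ (G.ρ X : G.dom X →* (L ⊗[W.K] W.H X ≃ₐ[L] L ⊗[W.K] W.H X)) g x +
            extHom τ (G.ρ X : G.dom X →* (L ⊗[W.K] W.H X ≃ₐ[L] L ⊗[W.K] W.H X)) g y :=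
            map_add _ _ _
          exact h ▸ Submodule.add_mem _ hx hy
        · intro l a ha
          have h := extE_tmul τ (show L ⊗[W.K] W.H X ≃ₐ[L] L ⊗[W.K] W.H X from G.ρ X g) l a
          have h1 : em W L a ∈ (baseW W L).gr X i := em_gr ha
          have h2 := psi_gr (W := W) τ ((G.acts X).gr_mem g i _ h1)
          have h3 := Submodule.smul_mem _ (show (baseW W M).K from l) h2
          exact h ▸ h3
      tr_act := by
        intro g a
        refine tmul_ind (p := fun a => (baseW W M).tr X (show (baseW W M).H X from extHom τ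
          (G.ρ X : G.dom X →* (L ⊗[W.K] W.H X ≃ₐ[L] L ⊗[W.K] W.H X)) g a) =
          (show (baseW W M).K from τ (show L from ((G.χ g : (baseW W L).Kˣ) : (baseW W L).K))) ^
            X.dim * (baseW W M).tr X a) ?_ ?_ ?_ a
        · have h : (show (baseW W M).H X from extHom τ (G.ρ X : G.dom X →*
            (L ⊗[W.K] W.H X ≃ₐ[L] L ⊗[W.K] W.H X)) g (0 : M ⊗[W.K] W.H X)) = 0 := map_zero _
          exact (congrArg _ h).trans (by rw [map_zero, mul_zero])
        · intro x y hx hy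
          have h : (show (baseW W M).H X from extHom τ (G.ρ X : G.dom X →*
              (L ⊗[W.K] W.H X ≃ₐ[L] L ⊗[W.K] W.H X)) g (x + y)) =
            (show (baseW W M).H X from extHom τ (G.ρ X : G.dom X →*
              (L ⊗[W.K] W.H X ≃ₐ[L] L ⊗[W.K] W.H X)) g x) +
            (show (baseW W M).H X from extHom τ (G.ρ X : G.dom X →*
              (L ⊗[W.K] W.H X ≃ₐ[L] L ⊗[W.K] W.H X)) g y) := map_add _ _ _
          refine (congrArg _ h).trans ?_
          rw [map_add, map_add, mul_add]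
          exact congrArg₂ (· + ·) hx hy
        · intro l a
          have h : (show (baseW W M).H X from extHom τ (G.ρ X : G.dom X →*
              (L ⊗[W.K] W.H X ≃ₐ[L] L ⊗[W.K] W.H X)) g (l ⊗ₜ[W.K] a)) =
              (show (baseW W M).K from l) • psi W τ X (G.ρ X g (em W L a)) :=
            extE_tmul τ (show L ⊗[W.K] W.H X ≃ₐ[L] L ⊗[W.K] W.H X from G.ρ X g) l a
          refine (congrArg _ h).trans ?_
          rw [map_smul, psi_tr, (G.acts X).tr_act, map_mul, map_pow, tmul_eq, map_smul, em_tr,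
            em_tr, smul_eq_mul, smul_eq_mul]
          have h4 : kap W τ (ex W L (W.tr X a)) = ex W M (W.tr X a) := τ.commutes _
          rw [h4]
          exact mul_left_comm _ _ _ }
  map_act {X Y} f := by
    obtain ⟨Δ, hΔ, h⟩ := G.map_act f
    refine ⟨Δ, hΔ, fun g g' hgg hg b => ?_⟩
    refine tmul_ind (p := fun b => (show (baseW W M).H X from extHom τ (G.ρ X : G.dom X →*
        (L ⊗[W.K] W.H X ≃ₐ[L] L ⊗[W.K] W.H X)) g ((baseW W M).map f b)) =
        (baseW W M).map f (show (baseW W M).H Y from extHom τ (G.ρ Y : G.dom Y →*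
        (L ⊗[W.K] W.H Y ≃ₐ[L] L ⊗[W.K] W.H Y)) g' b)) ?_ ?_ ?_ b
    · have h1 : (baseW W M).map f (0 : (baseW W M).H Y) = 0 := map_zero _
      have h2 : extHom τ (G.ρ X : G.dom X →*
        (L ⊗[W.K] W.H X ≃ₐ[L] L ⊗[W.K] W.H X)) g (0 : M ⊗[W.K] W.H X) = 0 := map_zero _
      have h3 : extHom τ (G.ρ Y : G.dom Y →*
        (L ⊗[W.K] W.H Y ≃ₐ[L] L ⊗[W.K] W.H Y)) g' (0 : M ⊗[W.K] W.H Y) = 0 := map_zero _
      exact ((congrArg _ h1).trans h2).trans ((congrArg ((baseW W M).map f) h3).trans h1).symm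
    · intro x y hx hy
      have h1 : (baseW W M).map f (x + y) = (baseW W M).map f x + (baseW W M).map f y :=
        map_add _ _ _
      have h2 : ∀ x y : M ⊗[W.K] W.H X, extHom τ (G.ρ X : G.dom X →*
        (L ⊗[W.K] W.H X ≃ₐ[L] L ⊗[W.K] W.H X)) g (x + y) = extHom τ (G.ρ X : G.dom X →*
        (L ⊗[W.K] W.H X ≃ₐ[L] L ⊗[W.K] W.H X)) g x + extHom τ (G.ρ X : G.dom X →*
        (L ⊗[W.K] W.H X ≃ₐ[L] L ⊗[W.K] W.H X)) g y := fun _ _ => map_add _ _ _
      have h3 : extHom τ (G.ρ Y : G.dom Y →*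
        (L ⊗[W.K] W.H Y ≃ₐ[L] L ⊗[W.K] W.H Y)) g' (x + y) = extHom τ (G.ρ Y : G.dom Y →*
        (L ⊗[W.K] W.H Y ≃ₐ[L] L ⊗[W.K] W.H Y)) g' x + extHom τ (G.ρ Y : G.dom Y →*
        (L ⊗[W.K] W.H Y ≃ₐ[L] L ⊗[W.K] W.H Y)) g' y := map_add _ _ _
      have h4 : (baseW W M).map f (show (baseW W M).H Y from extHom τ (G.ρ Y : G.dom Y →*
        (L ⊗[W.K] W.H Y ≃ₐ[L] L ⊗[W.K] W.H Y)) g' x + extHom τ (G.ρ Y : G.dom Y →*
        (L ⊗[W.K] W.H Y ≃ₐ[L] L ⊗[W.K] W.H Y)) g' y) =
        (baseW W M).map f (show (baseW W M).H Y from extHom τ (G.ρ Y : G.dom Y →*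
        (L ⊗[W.K] W.H Y ≃ₐ[L] L ⊗[W.K] W.H Y)) g' x) +
        (baseW W M).map f (show (baseW W M).H Y from extHom τ (G.ρ Y : G.dom Y →*
        (L ⊗[W.K] W.H Y ≃ₐ[L] L ⊗[W.K] W.H Y)) g' y) := map_add _ _ _
      exact ((congrArg _ h1).trans (h2 _ _)).trans ((congrArg₂ (· + ·) hx hy).trans
        (((congrArg ((baseW W M).map f) h3).trans h4).symm))
    · intro l b
      have e1 : (baseW W M).map f (show (baseW W M).H Y from (l ⊗ₜ[W.K] b)) =
          (l ⊗ₜ[W.K] (W.map f b) : M ⊗[W.K] W.H X) := bm_tmul f l b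
      have e2 : (show (baseW W M).H X from extHom τ (G.ρ X : G.dom X →*
              (L ⊗[W.K] W.H X ≃ₐ[L] L ⊗[W.K] W.H X)) g (l ⊗ₜ[W.K] (W.map f b))) =
              (show (baseW W M).K from l) • psi W τ X (G.ρ X g (em W L (W.map f b))) :=
            extE_tmul τ (show L ⊗[W.K] W.H X ≃ₐ[L] L ⊗[W.K] W.H X from G.ρ X g) l _
      have e3 : (show (baseW W M).H Y from extHom τ (G.ρ Y : G.dom Y →*
              (L ⊗[W.K] W.H Y ≃ₐ[L] L ⊗[W.K] W.H Y)) g' (l ⊗ₜ[W.K] b)) =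
              (show (baseW W M).K from l) • psi W τ Y (G.ρ Y g' (em W L b)) :=
            extE_tmul τ (show L ⊗[W.K] W.H Y ≃ₐ[L] L ⊗[W.K] W.H Y from G.ρ Y g') l _
      have e4 := congrArg (fun y : M ⊗[W.K] W.H X => (show (baseW W M).H X from extHom τ
        (G.ρ X : G.dom X →* (L ⊗[W.K] W.H X ≃ₐ[L] L ⊗[W.K] W.H X)) g y)) e1
      refine (e4.trans e2).trans ?_
      refine Eq.trans ?_ (congrArg ((baseW W M).map f) e3).symm
      rw [map_smul, ← psi_map, ← em_map, h g g' hgg hg]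
  cl_act {X j z} hz := by
    obtain ⟨Δ, hΔ, h⟩ := G.cl_act hz
    refine ⟨Δ, hΔ, fun g hg => ?_⟩
    have e2 : (show (baseW W M).H X from extHom τ (G.ρ X : G.dom X →*
              (L ⊗[W.K] W.H X ≃ₐ[L] L ⊗[W.K] W.H X)) g (phi τ (W.H X) (em W L (W.cl X z)))) =
              psi W τ X (G.ρ X g (em W L (W.cl X z))) :=
            extE_phi τ (show L ⊗[W.K] W.H X ≃ₐ[L] L ⊗[W.K] W.H X from G.ρ X g) _
    have e3 : phi τ (W.H X) (em W L (W.cl X z)) = em W M (W.cl X z) := psi_em τ _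
    have e4 : (show (baseW W M).H X from extHom τ (G.ρ X : G.dom X →*
              (L ⊗[W.K] W.H X ≃ₐ[L] L ⊗[W.K] W.H X)) g (em W M (W.cl X z))) =
              psi W τ X (G.ρ X g (em W L (W.cl X z))) := by rw [← e2, e3]
    refine e4.trans ?_
    have h1 := h g hg
    rw [em_cl] at h1
    rw [h1, psi_smul, psi_em, map_pow]
    rfl

lemma extG_psi (X : 𝒱.Obj) (g : G.dom X) (x : (baseW W L).H X) :
    (extG τ G).ρ X g (psi W τ X x) = psi W τ X (G.ρ X g x) :=
  extE_phi τ (show L ⊗[W.K] W.H X ≃ₐ[L] L ⊗[W.K] W.H X from G.ρ X g) x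

lemma extG_chi (g : G.Γ) : (((extG τ G).χ g : (baseW W M).Kˣ) : (baseW W M).K) =
    kap W τ ((G.χ g : (baseW W L).Kˣ) : (baseW W L).K) := rfl

/-- Rational classes which are Tate classes after the extension of the coefficients. -/
lemma tate_of_ext {j : ℕ} {c : W.H X} (hc : TT.IsTate (extG τ G) X j (em W M c)) :
    TT.IsTate G X j (em W L c) := by
  obtain ⟨hc, Δ, hΔ, h⟩ := hc
  refine ⟨em_gr (mem_of_em_mem hc), Δ, hΔ, fun g hg => ?_⟩
  have h1 := h g hg
  rw [extG_chi, ← psi_em τ, extG_psi, ← map_pow, ← psi_smul] at h1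
  exact phi_injective τ h1

end Ext

end Pool.Agent.H694.ZO
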