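import Pool.Agent.Y121.AH.ZeroOne

/-!
# Classes with arbitrary coefficients whose realisations are fixed
-/

open CategoryTheory AlgebraicGeometry TensorProduct

universe u

namespace Pool.Agent.H694.ZO

open Module
open Pool.Agent.H914 Pool.Agent.H914.VarClass Pool.Agent.H914.VarClass.Obj
  Pool.Agent.H914.WeilCohomology
open Pool.Agent.Y133.Half Pool.Agent.Y121.AH

variable {k : Type u} [Field k] {𝒱 : VarClass k} {ops : CycleOps 𝒱}

section Fix

variable {W₀ : WeilCohomology.{u, 0} ops} {T' : HodgeTheory ops} {P Z : 𝒱.Obj}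
  (R : Rlz W₀ (CW T')) {S : Sys W₀}

/-- The realisation of the operators of the system. -/
lemma op_comm (hS : ∀ X, ∀ x ∈ S.C X, gop T' X (R.E X x) = R.E X x) {f : W₀.H P →ₗ[W₀.K] W₀.H Z}
    (hf : f ∈ S.Op P Z) : ∃ F : (CW T').H P →ₗ[(CW T').K] (CW T').H Z,
      (∀ x, F (R.E P x) = R.E Z (f x)) ∧ ∀ y, gop T' Z (F y) = F (gop T' P y) := by
  obtain ⟨c, hc, rfl⟩ := Sys.mem_Op.1 hf
  have hne : R.c ^ P.dim ≠ 0 := pow_ne_zero _ R.ne
  have hne' : R.c ^ Z.dim ≠ 0 := pow_ne_zero _ R.ne
  refine ⟨(R.c ^ P.dim)⁻¹ • (CW T').corr (R.E _ c), fun x => ?_, fun y => ?_⟩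
  · rw [LinearMap.smul_apply, corr_apply, corr_apply]
    have h := R.push (snd P Z) (c * W₀.map (fst P Z) x)
    rw [dim_prod, map_mul (R.E (P.prod Z)), R.nat] at h
    have h2 : R.c ^ Z.dim • (R.c ^ P.dim • R.E Z (W₀.push (snd P Z) (c * W₀.map (fst P Z) x))) =
        R.c ^ Z.dim • ((CW T').push (snd P Z) (R.E _ c * (CW T').map (fst P Z) (R.E P x))) := by
      rw [← h, smul_smul, ← pow_add, Nat.add_comm Z.dim]
    have h3 := smul_right_injective _ hne' h2
    beta_reduce at h3
    rw [← h3, smul_smul, inv_mul_cancel₀ hne, one_smul]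
  · rw [LinearMap.smul_apply, LinearMap.smul_apply, corr_apply, corr_apply, map_smul, gop_push,
      gop_mul, gop_map, hS _ c hc]

/-- Polynomial relations are inherited by the generated classes. -/
lemma gen_rel (hS : ∀ X, ∀ x ∈ S.C X, gop T' X (R.E X x) = R.E X x)
    {μ : Polynomial (CW T').K} (hμ : Polynomial.aeval (gop T' P) μ = 0)
    {M : Submodule W₀.K (W₀.H P)} {x : W₀.H Z} (hx : x ∈ gen S P Z M) :
    Polynomial.aeval (gop T' Z) μ (R.E Z x) = 0 := by
  induction hx using Submodule.span_induction with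
  | mem x hx =>
    obtain ⟨f, hf, t, ht, rfl⟩ := hx
    obtain ⟨F, h1, h2⟩ := op_comm R hS hf
    rw [← h1, aeval_comm h2, hμ, LinearMap.zero_apply, map_zero]
  | zero => rw [map_zero, map_zero]
  | add x y _ _ hx hy => rw [map_add, map_add, hx, hy, add_zero]
  | smul r x _ hx => rw [R.semi, map_smul, hx, smul_zero]

lemma E_xp {X Y : 𝒱.Obj} (a : W₀.H X) (b : W₀.H Y) :
    R.E (X.prod Y) (xp W₀ a b) = xp (CW T') (R.E X a) (R.E Y b) := by
  rw [xp, map_mul, R.nat, R.nat, xp]

lemma E_xpw (v : W₀.H Z) : ∀ m, R.E (pw Z m) (xpw W₀ v m) = xpw (CW T') (R.E Z v) m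
  | 0 => rfl
  | m + 1 => by
    have h := E_xp R (xpw W₀ v m) v
    rw [E_xpw v m] at h
    exact h

/-- Polynomial relations for all external powers force a class to be fixed. -/
lemma fix_of_rel {μ : Polynomial (CW T').K} (hμ : μ ≠ 0) {j : ℕ} {v : W₀.H Z}
    (hv : v ∈ W₀.gr Z (2 * j))
    (h : ∀ m, Polynomial.aeval (gop T' (pw Z m)) μ (R.E (pw Z m) (xpw W₀ v m)) = 0) :
    gop T' Z (R.E Z v) = R.E Z v := by
  have hE : R.E Z v ∈ (CW T').gr Z (2 * j) := R.gr hv
  have hE0 : R.E Z v ∈ PH (CW T') Z 0 := PH.of' (by omega) hE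
  rw [← sub_eq_zero]
  apply (CW T').nondeg
  intro y
  refine pq_ind_nat (T := T') (p := fun y => (CW T').tr Z ((gop T' Z (R.E Z v) - R.E Z v) * y) = 0)
    ?_ ?_ ?_ y
  · intro i a b hab y hy
    have hgy := gop_pq hy
    have h1 : (2 : (CW T').K) ^ (a - b) * (CW T').tr Z (gop T' Z (R.E Z v) * y) =
        (CW T').tr Z (R.E Z v * y) := by
      rw [← smul_eq_mul, ← map_smul, ← mul_smul_comm, ← hgy, ← gop_mul, tr_gop]
    by_cases hab' : a = b
    · subst hab'
      rw [sub_self, zpow_zero, one_mul] at h1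
      rw [sub_mul, map_sub, h1, sub_self]
    · have hyi : y ∈ (CW T').gr Z i := T'.dec.le Z hab hy
      have h2 : (CW T').tr Z (R.E Z v * y) = 0 := by
        rcases Nat.even_or_odd' i with ⟨r, hr | hr⟩
        · -- the even case
          by_contra hne
          have hy0 : y ∈ PH (CW T') Z 0 := PH.of' (by omega) hyi
          have hb : (2 : (CW T').K) ^ (a - b) ≠ 0 := zpow_ne_zero _ two_ne
          have key : ∀ m : ℕ, μ.eval (((2 : (CW T').K) ^ (b - a)) ^ (m + 1)) = 0 := by
            intro m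
            have h3 := gop_xpw hgy m
            have h4 : ∀ x, (CW T').tr (pw Z m) (gop T' (pw Z m) x * xpw (CW T') y m) =
                ((2 : (CW T').K) ^ (b - a)) ^ (m + 1) *
                  (CW T').tr (pw Z m) (x * xpw (CW T') y m) := by
              intro x
              have h5 : ((2 : (CW T').K) ^ (a - b)) ^ (m + 1) *
                  (CW T').tr (pw Z m) (gop T' (pw Z m) x * xpw (CW T') y m) =
                  (CW T').tr (pw Z m) (x * xpw (CW T') y m) := by
                rw [← smul_eq_mul, ← map_smul, ← mul_smul_comm, ← h3, ← gop_mul, tr_gop]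
              rw [← h5, ← mul_assoc, ← mul_pow, ← zpow_add₀ two_ne]
              simp
            have h6 := aeval_form (g := gop T' (pw Z m))
              (φ := (CW T').tr (pw Z m) ∘ₗ LinearMap.mulRight (CW T').K (xpw (CW T') y m))
              (β := ((2 : (CW T').K) ^ (b - a)) ^ (m + 1)) h4 μ (R.E (pw Z m) (xpw W₀ v m))
            rw [h m, map_zero, E_xpw] at h6
            have h7 : ((CW T').tr (pw Z m) ∘ₗ
                LinearMap.mulRight (CW T').K (xpw (CW T') y m)) (xpw (CW T') (R.E Z v) m) =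
                (CW T').tr Z (R.E Z v * y) ^ (m + 1) := tr_xpw hE0 hy0 m
            rw [h7] at h6
            exact (mul_eq_zero.1 h6.symm).resolve_right (pow_ne_zero _ hne)
          have hinj : Function.Injective fun m : ℕ => ((2 : (CW T').K) ^ (b - a)) ^ (m + 1) := by
            intro m m' hmm
            beta_reduce at hmm
            rw [← zpow_natCast, ← zpow_natCast, ← zpow_mul, ← zpow_mul] at hmm
            have h8 : (2 : (CW T').K) ^ ((b - a) * ((m + 1 : ℕ) : ℤ) -
                (b - a) * ((m' + 1 : ℕ) : ℤ)) = 1 := by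
              rw [zpow_sub₀ two_ne, hmm, div_self (zpow_ne_zero _ two_ne)]
            have h9 := two_zpow_ne h8
            rw [← mul_sub] at h9
            rcases mul_eq_zero.1 h9 with h10 | h10
            · exact absurd (by omega) hab'
            · push_cast at h10; omega
          have hfin : {x : (CW T').K | μ.IsRoot x}.Finite := Polynomial.finite_setOfPred_isRoot hμ
          have hinf : (Set.range fun m : ℕ => ((2 : (CW T').K) ^ (b - a)) ^ (m + 1)).Infinite :=
            Set.infinite_range_of_injective hinj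
          exact hinf (hfin.subset (by rintro _ ⟨m, rfl⟩; exact key m))
        · apply (CW T').tr_eq_zero ((CW T').mul_mem hE hyi)
          omega
      rw [h2] at h1
      have h3 := (mul_eq_zero.1 h1).resolve_left (zpow_ne_zero _ two_ne)
      rw [sub_mul, map_sub, h3, h2, sub_self]
  · intro a b ha hb; rw [mul_add, map_add, ha, hb, add_zero]
  · rw [mul_zero, map_zero]

end Fix

end Pool.Agent.H694.ZO
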