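import Pool.Agent.H694.ZO.Nop

/-!
# Classes generated by Tate correspondences have finite orbits
-/

open CategoryTheory AlgebraicGeometry

universe u w

namespace Pool.Agent.H694.ZO

open Module
open Pool.Agent.H914 Pool.Agent.H914.VarClass Pool.Agent.H914.VarClass.Obj
  Pool.Agent.H914.WeilCohomology
open Pool.Agent.Y133.Half (PH PH.of' PH.map PH.mul PH.push PH.ind xp tr_xp pw ClassPred Sys)
open Pool.Agent.Y121.AH (dia dia_apply gen xpw xpw_even tr_xpw)

variable {k : Type u} [Field k] {𝒱 : VarClass k} {ops : CycleOps 𝒱}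
  {W : WeilCohomology.{u, 0} ops} {G : TT.GaloisSystem.{u, 0, w} W} {X Y P Z : 𝒱.Obj}

lemma fin_all {Γ : Type*} [Group Γ] : ∀ {n : ℕ} {p : Fin n → Γ → Prop}, (∀ i, Fin' (p i)) →
    Fin' fun g => ∀ i, p i g := by
  intro n
  induction n with
  | zero => exact fun _ => Fin'.triv fun g i => i.elim0
  | succ n ih =>
    intro p h
    refine ((h 0).and (ih fun i => h i.succ)).mono ?_
    rintro g ⟨h0, h1⟩ i
    exact Fin.cases h0 h1 i

/-- The relation between operators is satisfied. -/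
def Inh (G : TT.GaloisSystem.{u, 0, w} W) (P Z : 𝒱.Obj) (x : W.H Z) (Δ : Subgroup G.Γ) : Prop :=
  ∀ (r : ℕ) (γ : Fin r → G.Γ) (a : Fin r → W.K), (∀ i, γ i ∈ Δ) →
    ∑ i, a i • nop G P (γ i) = 0 → ∑ i, a i • nop G Z (γ i) x = 0

lemma Inh.anti {x : W.H Z} {Δ Δ' : Subgroup G.Γ} (h : Inh G P Z x Δ) (hd : Δ' ≤ Δ) :
    Inh G P Z x Δ' := fun r γ a hγ => h r γ a fun i => hd (hγ i)

/-- Linear relations between the operators are inherited by the generated classes. -/
lemma gen_inh {M : Submodule W.K (W.H P)} (hM : M ≤ PH W P 0) {x : W.H Z}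
    (hx : x ∈ gen (TT.tatePred G).sys P Z M) :
    ∃ Δ : Subgroup G.Γ, Δ.FiniteIndex ∧ Inh G P Z x Δ := by
  induction hx using Submodule.span_induction with
  | mem x hx =>
    obtain ⟨f, hf, t, ht, rfl⟩ := hx
    obtain ⟨z, hz, rfl⟩ := Sys.mem_Op.1 hf
    obtain ⟨Δ, hΔ, h⟩ := nop_corr hz
    refine ⟨Δ, hΔ, fun r γ a hγ h0 => ?_⟩
    have h1 : ∀ i, a i • nop G Z (γ i) (W.corr z t) = W.corr z (a i • nop G P (γ i) t) := by
      intro i
      rw [h (γ i) (hγ i) t (hM ht), map_smul]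
    rw [Finset.sum_congr rfl fun i _ => h1 i, ← map_sum]
    have h2 := LinearMap.congr_fun h0 t
    simp only [LinearMap.sum_apply, LinearMap.smul_apply, LinearMap.zero_apply] at h2
    rw [h2, map_zero]
  | zero => exact ⟨⊤, inferInstance, fun r γ a _ _ => by simp⟩
  | add x y _ _ hx hy =>
    obtain ⟨Δ, hΔ, h⟩ := hx
    obtain ⟨Δ', hΔ', h'⟩ := hy
    refine ⟨Δ ⊓ Δ', TT.finiteIndex_inf hΔ hΔ', fun r γ a hγ h0 => ?_⟩
    simp only [map_add, smul_add, Finset.sum_add_distrib]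
    rw [h r γ a (fun i => (hγ i).1) h0, h' r γ a (fun i => (hγ i).2) h0, add_zero]
  | smul s x _ hx =>
    obtain ⟨Δ, hΔ, h⟩ := hx
    refine ⟨Δ, hΔ, fun r γ a hγ h0 => ?_⟩
    have h1 : ∀ i, a i • nop G Z (γ i) (s • x) = s • (a i • nop G Z (γ i) x) := by
      intro i
      rw [map_smul, smul_comm]
    rw [Finset.sum_congr rfl fun i _ => h1 i, ← Finset.smul_sum, h r γ a hγ h0, smul_zero]

lemma exists_tr_ne {j : ℕ} {w : W.H Z} (hw : w ∈ W.gr Z (2 * j)) (hne : w ≠ 0) :
    ∃ y ∈ PH W Z 0, W.tr Z (w * y) ≠ 0 := by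
  by_contra hcon
  push Not at hcon
  apply hne
  apply W.nondeg
  intro y
  refine gr_induction (W.isInternal Z) (p := fun y => W.tr Z (w * y) = 0) ?_ ?_ y
  · intro i y hy
    rcases Nat.even_or_odd' i with ⟨r, hr | hr⟩
    · exact hcon y (PH.of' (by omega) hy)
    · exact W.tr_eq_zero (W.mul_mem hw hy) (by omega)
  · intro a b ha hb
    rw [mul_add, map_add, ha, hb, add_zero]

/-- The linear form given by a class. -/
noncomputable def lf (w : W.H Z) : Module.Dual W.K (W.H Z) :=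
  W.tr Z ∘ₗ LinearMap.mulLeft W.K w

lemma lf_apply (w y : W.H Z) : lf w y = W.tr Z (w * y) := rfl

/-- A class which separates finitely many nonzero, distinct classes. -/
lemma exists_sep {j n : ℕ} (v : Fin n → W.H Z) (hv : ∀ i, v i ∈ W.gr Z (2 * j))
    (hinj : Function.Injective v) (hne : ∀ i, v i ≠ 0) :
    ∃ y ∈ PH W Z 0, (Function.Injective fun i => W.tr Z (v i * y)) ∧
      ∀ i, W.tr Z (v i * y) ≠ 0 := by
  classical
  obtain ⟨y, hy, h⟩ := Module.Dual.exists_forall_mem_ne_zero_of_forall_exists (K := W.K)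
    (M := W.H Z) (ι := Fin n ⊕ {p : Fin n × Fin n // p.1 ≠ p.2}) (PH W Z 0)
    (Sum.elim (fun i => lf (v i)) fun p => lf (v p.1.1 - v p.1.2)) (by
      rintro (i | ⟨⟨i, i'⟩, hi⟩)
      · exact exists_tr_ne (hv i) (hne i)
      · exact exists_tr_ne (Submodule.sub_mem _ (hv i) (hv i'))
          (sub_ne_zero.2 fun h => hi (hinj h)))
  refine ⟨y, hy, ?_, fun i => h (Sum.inl i)⟩
  intro i i' hii
  by_contra hne'
  refine h (Sum.inr ⟨(i, i'), hne'⟩) ?_
  change W.tr Z ((v i - v i') * y) = 0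
  rw [sub_mul, map_sub, sub_eq_zero]
  exact hii

/-- **The orbit of a class is finite** if all its external powers are generated by the classes on
one variety under Tate correspondences. -/
lemma orbit_finite {M : Submodule W.K (W.H P)} (hM : M ≤ PH W P 0) {j : ℕ} {c : W.H Z}
    (hc : c ∈ W.gr Z (2 * j)) (h : ∀ m, xpw W c m ∈ gen (TT.tatePred G).sys P (pw Z m) M) :
    ∃ Δ : Subgroup G.Γ, Δ.FiniteIndex ∧ Δ ≤ G.dom Z ∧
      ((fun g => nop G Z g c) '' (Δ : Set G.Γ)).Finite := by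
  classical
  by_cases hc0 : c = 0
  · refine ⟨G.dom Z, (G.acts Z).finite, le_rfl, (Set.finite_singleton (0 : W.H Z)).subset ?_⟩
    rintro _ ⟨g, -, rfl⟩
    rw [Set.mem_singleton_iff, hc0]
    exact map_zero _
  set B := finrank W.K (Module.End W.K (W.H P)) with hB
  -- the subgroup
  have h1 : ∀ m : Fin (B + 1), ∃ Δ : Subgroup G.Γ, Δ.FiniteIndex ∧
      Inh G P (pw Z m) (xpw W c m) Δ := fun m => gen_inh hM (h m)
  choose Δ₁ hΔ₁ h1 using h1
  obtain ⟨Δ₂, hΔ₂, h2⟩ := fin_all (fun m : Fin (B + 1) => nop_xpw (G := G) (Z := Z) m)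
  obtain ⟨Δ₃, hΔ₃, h3⟩ := fin_all (fun m : Fin (B + 1) => Fin'.of (hΔ₁ m))
  refine ⟨Δ₂ ⊓ Δ₃ ⊓ G.dom Z,
    TT.finiteIndex_inf (TT.finiteIndex_inf hΔ₂ hΔ₃) (G.acts Z).finite, inf_le_right, ?_⟩
  by_contra hinf
  obtain ⟨t, ht, htc⟩ := (show (_ : Set _).Infinite from hinf).exists_subset_card_eq (B + 1)
  -- the elements of the orbit
  let e : Fin (B + 1) ≃ t := (Fintype.equivFinOfCardEq (by rw [Fintype.card_coe, htc])).symm
  have h4 : ∀ i, ∃ g ∈ Δ₂ ⊓ Δ₃ ⊓ G.dom Z, nop G Z g c = (e i : W.H Z) := by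
    intro i
    obtain ⟨g, hg, hgi⟩ := ht (e i).2
    exact ⟨g, hg, hgi⟩
  choose γ hγ h4 using h4
  have hinj : Function.Injective fun i => nop G Z (γ i) c := by
    intro i i' hii
    beta_reduce at hii
    rw [h4, h4] at hii
    exact e.injective (Subtype.ext hii)
  have hne : ∀ i, nop G Z (γ i) c ≠ 0 := by
    intro i hi
    apply hc0
    rw [← nop_inv_nop (hγ i).2 c, hi, map_zero]
  have hgr : ∀ i, nop G Z (γ i) c ∈ W.gr Z (2 * j) := fun i => nop_mem (hγ i).2 hc
  -- the linear relation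
  have h5 : ¬ LinearIndependent W.K fun i => nop G P (γ i) := by
    intro hli
    have := hli.fintype_card_le_finrank
    rw [Fintype.card_fin] at this
    omega
  rw [Fintype.not_linearIndependent_iff] at h5
  obtain ⟨a, ha, i₀, hi₀⟩ := h5
  obtain ⟨y, hy, hyinj, hyne⟩ := exists_sep (fun i => nop G Z (γ i) c) hgr hinj hne
  have hc' : c ∈ PH W Z 0 := PH.of' (by omega) hc
  have h6 : ∀ m : Fin (B + 1), ∑ i, (a i * W.tr Z (nop G Z (γ i) c * y)) *
      W.tr Z (nop G Z (γ i) c * y) ^ (m : ℕ) = 0 := by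
    intro m
    have h7 := h1 m (B + 1) γ a (fun i => h3 _ (hγ i).1.2 m) ha
    have h8 : ∀ i, a i • nop G (pw Z m) (γ i) (xpw W c m) =
        a i • xpw W (nop G Z (γ i) c) m := by
      intro i
      rw [h2 _ (hγ i).1.1 m c hc']
    rw [Finset.sum_congr rfl fun i _ => h8 i] at h7
    have h9 := congrArg (fun x => W.tr (pw Z m) (x * xpw W y m)) h7
    beta_reduce at h9
    rw [Finset.sum_mul, map_sum, zero_mul, map_zero] at h9
    refine Eq.trans (Finset.sum_congr rfl fun i _ => ?_) h9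
    rw [smul_mul_assoc, map_smul, tr_xpw (nop_even (hγ i).2 hc') hy, smul_eq_mul, pow_succ']
    ring
  have h7 := Matrix.eq_zero_of_forall_pow_sum_mul_pow_eq_zero hyinj h6
  have h8 := congrFun h7 i₀
  simp only [Pi.zero_apply, mul_eq_zero] at h8
  exact h8.elim hi₀ (hyne i₀)

/-- If the orbit of a class is finite, its stabiliser has finite index. -/
lemma fix_of_finite {c : W.H Z} {Δ : Subgroup G.Γ} (hΔ : Δ.FiniteIndex) (hd : Δ ≤ G.dom Z)
    (hfin : ((fun g => nop G Z g c) '' (Δ : Set G.Γ)).Finite) :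
    Fin' fun g : G.Γ => nop G Z g c = c := by
  classical
  let K : Subgroup Δ :=
    { carrier := {g | nop G Z g c = c}
      mul_mem' := by
        intro a b ha hb
        change nop G Z (a * b : G.Γ) c = c
        rw [nop_comp (hd a.2) (hd b.2)]
        have h1 : nop G Z (b : G.Γ) c = c := hb
        have h2 : nop G Z (a : G.Γ) c = c := ha
        rw [h1, h2]
      one_mem' := nop_one c
      inv_mem' := by
        intro a ha
        change nop G Z ((a : G.Γ)⁻¹) c = c
        have h1 : nop G Z (a : G.Γ) c = c := ha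
        conv_lhs => rw [← h1]
        exact nop_inv_nop (hd a.2) c }
  have : Finite ((fun g => nop G Z g c) '' (Δ : Set G.Γ)) := hfin
  let F : Δ ⧸ K → ((fun g => nop G Z g c) '' (Δ : Set G.Γ)) :=
    Quotient.lift (fun g : Δ => ⟨nop G Z g c, g, g.2, rfl⟩) (by
      intro a b hab
      have h1 : a⁻¹ * b ∈ K := QuotientGroup.leftRel_apply.1 hab
      have h2 : nop G Z ((a : G.Γ)⁻¹ * b) c = c := h1
      apply Subtype.ext
      change nop G Z (a : G.Γ) c = nop G Z (b : G.Γ) c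
      conv_lhs => rw [← h2]
      rw [← nop_comp (hd a.2) (mul_mem (inv_mem (hd a.2)) (hd b.2)), mul_inv_cancel_left])
  have hF : Function.Injective F := by
    intro a b hab
    induction a using QuotientGroup.induction_on with
    | H a =>
      induction b using QuotientGroup.induction_on with
      | H b =>
        have h1 : nop G Z (a : G.Γ) c = nop G Z (b : G.Γ) c := congrArg Subtype.val hab
        rw [QuotientGroup.eq]
        change nop G Z ((a : G.Γ)⁻¹ * b) c = c
        rw [nop_comp (inv_mem (hd a.2)) (hd b.2), ← h1]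
        exact nop_inv_nop (hd a.2) c
  have hK : K.FiniteIndex := by
    have : Finite (Δ ⧸ K) := Finite.of_injective F hF
    exact Subgroup.finiteIndex_of_finite_quotient
  refine ⟨K.map Δ.subtype, ⟨?_⟩, ?_⟩
  · rw [Subgroup.index_map_subtype]
    exact mul_ne_zero hK.index_ne_zero hΔ.index_ne_zero
  · rintro _ ⟨g, hg, rfl⟩
    exact hg

/-- Classes all of whose external powers are generated by the classes on one variety under Tate
correspondences are Tate classes. -/
theorem tate_of_gen {M : Submodule W.K (W.H P)} (hM : M ≤ PH W P 0) {j : ℕ} {c : W.H Z}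
    (hc : c ∈ W.gr Z (2 * j)) (h : ∀ m, xpw W c m ∈ gen (TT.tatePred G).sys P (pw Z m) M) :
    TT.IsTate G Z j c := by
  obtain ⟨Δ, hΔ, hd, hfin⟩ := orbit_finite hM hc h
  exact tate_of_nop hc (fix_of_finite hΔ hd hfin)

end Pool.Agent.H694.ZO
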