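import Pool.Agent.H694.ZO.TateHodge
import Pool.Agent.H694.ZO.Orbit
import Pool.Agent.Y133.Half.PairPow

/-!
# Finite index implies finite generation, and its consequences
-/

open CategoryTheory AlgebraicGeometry TensorProduct Filter Topology

open scoped ENNReal

universe u w

namespace Pool.Agent.H694.ZO

open Module
open Pool.Agent.H914 Pool.Agent.H914.VarClass Pool.Agent.H914.VarClass.Obj
  Pool.Agent.H914.WeilCohomology
open Pool.Agent.Y133.Half Pool.Agent.Y121.AH Pool.Agent.R920.MT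

variable {k : Type u} [Field k] {𝒱 : VarClass k} {ops : CycleOps 𝒱}

/-- Finite index implies finite generation. -/
lemma genBy_of_index {W : WeilCohomology.{u, 0} ops} {S S' : Sys W} (hS : ∀ X, S.C X ≤ S'.C X)
    (X : 𝒱.Obj) [Nontrivial (W.H X)] (hnd : ∀ n, S.Nondeg (pw X n)) {N : ℕ∞}
    (h : HasIndex (fun n => finrank W.K (S'.C (pw X n))) (fun n => finrank W.K (S.C (pw X n))) N)
    (hN : N ≠ ⊤) : ∃ (m : ℕ) (P : 𝒱.Obj), Nonempty (P ≅ pw X m) ∧ GenBy S S' X P := by
  obtain ⟨z, hz, hz1⟩ := Sys.exists_tr_one (S := S) (X := X) (hnd 0)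
  rcases growth_or S S' hS X hz hz1 with h1 | h1
  · exact h1
  · exfalso
    obtain ⟨m, rfl⟩ := ENat.ne_top_iff_exists.1 hN
    obtain ⟨n₀, hn₀⟩ := h1 (m + 1)
    have h2 : ((m + 1 : ℕ) : ℝ≥0∞) ≤ ((m : ℕ∞) : ℝ≥0∞) := by
      refine ge_of_tendsto h ?_
      filter_upwards [eventually_ge_atTop n₀] with n hn
      have h3 := hn₀ n hn
      rw [Sys.nondeg_iff.1 (hnd n)] at h3
      have h4 : (((m + 1) * finrank W.K (S.C (pw X n)) : ℕ) : ℝ≥0∞) ≤
          (finrank W.K (S'.C (pw X n)) : ℝ≥0∞) := by exact_mod_cast h3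
      have h5 : ((finrank W.K (S.C (pw X n)) : ℕ) : ℝ≥0∞) ≠ 0 := by
        have := Sys.finrank_pos_pw (S := S) (X := X) n
        exact_mod_cast this.ne'
      rw [ENNReal.le_div_iff_mul_le (Or.inl h5) (Or.inl (ENNReal.natCast_ne_top _))]
      rw [Nat.cast_mul] at h4
      exact h4
    have h3 : ((m + 1 : ℕ) : ℝ≥0∞) ≤ (m : ℝ≥0∞) := by simpa using h2
    have h4 : m + 1 ≤ m := by exact_mod_cast h3
    omega

section Hodge

variable {T : HodgeTheory ops} {X P Z : 𝒱.Obj}

/-- The realisation given by the complex coefficients. -/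
noncomputable def rlzEm (T : HodgeTheory ops) : Rlz T.W (CW T) where
  s := algebraMap T.W.K ℂ
  c := 1
  ne := one_ne_zero
  E X := (Algebra.TensorProduct.includeRight : T.W.H X →ₐ[T.W.K] ℂ ⊗[T.W.K] T.W.H X).toRingHom
  semi X r a := em_smul (W := T.W) (L := ℂ) r a
  gr ha := em_gr ha
  nat f b := (em_map f b).symm
  push f a := by rw [one_pow, one_pow, one_smul, one_smul]; exact (em_push f a).symm

lemma rlzEm_apply (x : T.W.H X) : (rlzEm T).E X x = em T.W ℂ x := rfl

/-- Classes of a system which is generated by its classes on one variety under motivated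
correspondences are Hodge classes. -/
theorem sys_hodge (Q : ClassPred T.W) (h : GenBy (motPred T.W).sys Q.sys X P) {n j : ℕ}
    {c : T.W.H (pw X n)} (hc : Q.P (pw X n) j c) : IsHodge T (pw X n) j c := by
  have hc0 : c ∈ Q.sys.C (pw X n) := ClassPred.sp_of (Q := Q) hc
  refine isHodge_of_fix (Q.gr hc) ?_
  have h1 := fix_of_rel (rlzEm T) (μ := (gop T P).charpoly) (LinearMap.charpoly_monic _).ne_zero
    (Q.gr hc) (v := c) fun m => ?_
  · rw [rlzEm_apply] at h1
    exact h1
  · obtain ⟨r, hr⟩ := pw_pw X n m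
    exact gen_rel (rlzEm T) (fun X x hx => mot_gop hx) (LinearMap.aeval_self_charpoly _)
      (h r _ hr (xpw_mem' _ hc0 m))

end Hodge

section Tate

variable {W : WeilCohomology.{u, 0} ops} {L : Type} [Field L] [Algebra W.K L] {X P Z : 𝒱.Obj}

lemma em_sys (G : TT.GaloisSystem.{u, 0, w} (baseW W L)) {z : W.H X}
    (hz : z ∈ (motPred W).sys.C X) : em W L z ∈ (TT.tatePred G).sys.C X := by
  refine ClassPred.sp_ind (Q := motPred W) (q := fun z => em W L z ∈ (TT.tatePred G).sys.C X)
    ?_ ?_ ?_ hz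
  · intro j x hx
    exact ClassPred.sp_of (Q := TT.tatePred G) (TT.IsMotivated.tate (TT.mot_base hx))
  · rw [em_zero]; exact Submodule.zero_mem _
  · intro x y hx hy
    rw [em_add]; exact Submodule.add_mem _ hx hy

lemma em_gen (G : TT.GaloisSystem.{u, 0, w} (baseW W L)) {M : Submodule W.K (W.H P)}
    (hM : M ≤ PH W P 0) {x : W.H Z} (hx : x ∈ gen (motPred W).sys P Z M) :
    em W L x ∈ gen (TT.tatePred G).sys P Z (PH (baseW W L) P 0) := by
  induction hx using Submodule.span_induction with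
  | mem x hx =>
    obtain ⟨f, hf, t, ht, rfl⟩ := hx
    obtain ⟨z, hz, rfl⟩ := Sys.mem_Op.1 hf
    rw [← em_corr]
    exact mem_gen (Sys.Op.corr (em_sys G hz)) (em_PH (hM ht))
  | zero => rw [em_zero]; exact Submodule.zero_mem _
  | add x y _ _ hx hy => rw [em_add]; exact Submodule.add_mem _ hx hy
  | smul r x _ hx => rw [em_smul]; exact Submodule.smul_mem _ _ hx

/-- Classes of a system which is generated by its classes on one variety under motivated
correspondences are Tate classes. -/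
theorem sys_tate (G : TT.GaloisSystem.{u, 0, w} (baseW W L)) (Q : ClassPred W)
    (h : GenBy (motPred W).sys Q.sys X P) {n j : ℕ} {c : W.H (pw X n)}
    (hc : Q.P (pw X n) j c) : TT.IsTate G (pw X n) j (em W L c) := by
  have hc0 : c ∈ Q.sys.C (pw X n) := ClassPred.sp_of (Q := Q) hc
  refine tate_of_gen (M := PH (baseW W L) P 0) le_rfl (em_gr (Q.gr hc)) fun m => ?_
  obtain ⟨r, hr⟩ := pw_pw X n m
  rw [← em_xpw]
  exact em_gen G (fun x hx => Q.sys.even hx) (h r _ hr (xpw_mem' _ hc0 m))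

end Tate

end Pool.Agent.H694.ZO
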