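import Pool.Agent.H694.ZO.Desc

/-!
# The zero-one law for Hodge classes and Tate classes
-/

open CategoryTheory AlgebraicGeometry TensorProduct Filter Topology

open scoped ENNReal

universe u w

namespace Pool.Agent.H694.ZO

open Module
open Pool.Agent.H914 Pool.Agent.H914.VarClass Pool.Agent.H914.VarClass.Obj
  Pool.Agent.H914.WeilCohomology
open Pool.Agent.Y133.Half Pool.Agent.Y121.AH Pool.Agent.R920.MT

/-- Indices are multiplicative. -/
lemma hasIndex_mul {t r m : ℕ → ℕ} {A M : ℕ∞} (h1 : HasIndex t r A) (h2 : HasIndex r m M)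
    (hr : ∀ n, r n ≠ 0) (hA : 1 ≤ A) (hM : 1 ≤ M) : HasIndex t m (A * M) := by
  have hmul := ENNReal.Tendsto.mul h1 (Or.inl (by
    have : (1 : ℝ≥0∞) ≤ A := by exact_mod_cast hA
    exact (lt_of_lt_of_le one_pos this).ne')) h2 (Or.inl (by
    have : (1 : ℝ≥0∞) ≤ M := by exact_mod_cast hM
    exact (lt_of_lt_of_le one_pos this).ne'))
  unfold HasIndex
  rw [ENat.toENNReal_mul]
  refine hmul.congr fun n => ?_
  have e0 : ((r n : ℕ) : ℝ≥0∞) ≠ 0 := by exact_mod_cast hr n
  have e1 : ((r n : ℕ) : ℝ≥0∞) ≠ ⊤ := ENNReal.natCast_ne_top _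
  rw [div_eq_mul_inv, div_eq_mul_inv, div_eq_mul_inv, mul_assoc,
    ← mul_assoc (((r n : ℕ) : ℝ≥0∞)⁻¹), ENNReal.inv_mul_cancel e0 e1, one_mul]

variable {k : Type u} [Field k] {𝒱 : VarClass k} {ops : CycleOps 𝒱} {T : HodgeTheory ops}
  {ι : Type} {L : ι → Type} [∀ i, Field (L i)] [∀ i, Algebra T.W.K (L i)]
  (G : ∀ i, TT.GaloisSystem.{u, 0, w} (baseW T.W (L i))) {X P Z : 𝒱.Obj}

/-- The rational classes which are Hodge classes and Tate classes for all given actions. -/
def BothP : Property T.W := fun X j c =>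
  IsHodge T X j c ∧ ∀ i, TT.IsTate (G i) X j (em T.W (L i) c)

lemma isSystem_both : IsSystem (W := T.W) (BothP G) where
  lin X j := ⟨{ carrier := {c | BothP G X j c}
                add_mem' := fun ha hb => ⟨ha.1.add hb.1, fun i => by
                  rw [em_add]; exact (ha.2 i).add (hb.2 i)⟩
                zero_mem' := ⟨IsHodge.zero, fun i => by rw [em_zero]; exact TT.IsTate.zero⟩
                smul_mem' := fun r _ ha => ⟨ha.1.smul r, fun i => by
                  rw [em_smul]; exact (ha.2 i).smul _⟩ }, fun _ => Iff.rfl⟩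
  cl _ _ _ hz := ⟨IsHodge.cl hz, fun i => TT.IsTate.cl hz⟩
  mul _ _ _ _ _ ha hb := ⟨ha.1.mul hb.1, fun i => by rw [em_mul]; exact (ha.2 i).mul (hb.2 i)⟩
  map _ _ f _ _ h := ⟨h.1.map f, fun i => by rw [← em_map]; exact (h.2 i).map f⟩
  push _ _ f _ _ _ hl h := ⟨h.1.push f hl, fun i => by rw [← em_push]; exact (h.2 i).push f hl⟩
  lift X D j hD hL hj x hx h := by
    refine ⟨(isSystem_hodge T).lift X D j hD hL hj x hx h.1, fun i => ?_⟩
    refine TT.IsTate.lift (D := D) hD (base_hardLefschetz hD hL) hj (em_gr hx) ?_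
    have e := TT.bpowMul_tmul (W := T.W) (L := L i) D (X.dim - 2 * j) 1 x
    exact e ▸ h.2 i

/-- The rational classes which are Hodge classes and Tate classes, as a system. -/
def bothPred : ClassPred T.W where
  P := BothP G
  gr := fun h => h.1.1
  zero := ((isSystem_both G).lin _ _).zero
  add := fun ha hb => ((isSystem_both G).lin _ _).add ha hb
  smul := fun r _ ha => ((isSystem_both G).lin _ _).smul r ha
  cl := fun hz => (isSystem_both G).cl _ _ _ hz
  mul := fun ha hb => (isSystem_both G).mul _ _ _ _ _ ha hb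
  map f _ _ h := (isSystem_both G).map _ _ f _ _ h
  push f _ _ hl _ h := (isSystem_both G).push _ _ f _ _ _ hl h

lemma lifts_both : Lifts T (bothPred G) := by
  intro X D hD j hj v hv
  have h0 : v ∈ T.W.gr X (2 * X.dim - 2 * j) := by
    have := (bothPred G).gr hv
    rwa [show 2 * (X.dim - j) = 2 * X.dim - 2 * j by omega] at this
  obtain ⟨x, hx, hxv⟩ := hl_surj hD.2.1 hj h0
  exact ⟨x, (isSystem_both G).lift X D j hD.1 hD.2.1 hj x hx (by
    unfold powMul
    rw [hxv]; exact hv), hxv⟩

lemma both_nondeg (X : 𝒱.Obj) : (bothPred G).sys.Nondeg X :=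
  fun _ hx h => q_nondeg_sys (Q := bothPred G) (fun h => h.1) (lifts_both G) hx h

lemma both_gop : ∀ X, ∀ x ∈ (bothPred G).sys.C X, gop T X (em T.W ℂ x) = em T.W ℂ x := by
  intro X x hx
  refine ClassPred.sp_ind (Q := bothPred G)
    (q := fun x => gop T X (em T.W ℂ x) = em T.W ℂ x) ?_ ?_ ?_ hx
  · intro j x hx
    exact gop_hodge hx.1
  · rw [em_zero, map_zero]
  · intro x y hx hy
    rw [em_add, map_add, hx, hy]

lemma both_tate (i : ι) : ∀ X, ∀ x ∈ (bothPred G).sys.C X,
    em T.W (L i) x ∈ (TT.tatePred (G i)).sys.C X := by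
  intro X x hx
  refine ClassPred.sp_ind (Q := bothPred G)
    (q := fun x => em T.W (L i) x ∈ (TT.tatePred (G i)).sys.C X) ?_ ?_ ?_ hx
  · intro j x hx
    exact ClassPred.sp_of (Q := TT.tatePred (G i)) (hx.2 i)
  · rw [em_zero]; exact Submodule.zero_mem _
  · intro x y hx hy
    rw [em_add]; exact Submodule.add_mem _ hx hy

lemma base_le_tate (i : ι) (X : 𝒱.Obj) :
    ((bothPred G).sys.base (L i)).C X ≤ (TT.tatePred (G i)).sys.C X := by
  intro x hx
  refine TT.base_ind (P := fun x => x ∈ (TT.tatePred (G i)).sys.C X) ?_ ?_ ?_ hx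
  · exact Submodule.zero_mem _
  · intro x y hx hy; exact Submodule.add_mem _ hx hy
  · intro l a ha
    have h := tmul_eq (W := T.W) l a
    have h2 : TT.ten (L i) l a = (show (baseW T.W (L i)).K from l) • em T.W (L i) a := h
    rw [h2]
    exact Submodule.smul_mem _ _ (both_tate G i X a ha)

/-- If the Hodge classes are generated over the rational Hodge and Tate classes, they are Tate
classes. -/
lemma hodge_le (h : GenBy (bothPred G).sys (hodgePred T).sys X P) {n j : ℕ} {c : T.W.H (pw X n)}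
    (hc : IsHodge T (pw X n) j c) : BothP G (pw X n) j c := by
  refine ⟨hc, fun i => fg_tate (G i) (P := P) (both_tate G i) hc.1 fun m => ?_⟩
  have hc0 : c ∈ (hodgePred T).sys.C (pw X n) := ClassPred.sp_of (Q := hodgePred T) hc
  obtain ⟨r, hr⟩ := pw_pw X n m
  exact gen_mono (fun x hx => (hodgePred T).sys.even hx) (h r _ hr (xpw_mem' _ hc0 m))

/-- If the Tate classes are generated over the rational Hodge and Tate classes, they are linear
combinations of rational Hodge and Tate classes. -/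
lemma tate_le (i : ι) (τ : L i →+* ℂ)
    (h : GenBy ((bothPred G).sys.base (L i)) (TT.tatePred (G i)).sys X P) {n j : ℕ}
    {c : (baseW T.W (L i)).H (pw X n)} (hc : TT.IsTate (G i) (pw X n) j c) :
    c ∈ Submodule.span (baseW T.W (L i)).K
      {x | ∃ c', BothP G (pw X n) j c' ∧ em T.W (L i) c' = x} := by
  have key : ∀ {c : (baseW T.W (L i)).H (pw X n)}, TT.IsTate (G i) (pw X n) j c → ∀ m,
      xpw (baseW T.W (L i)) c m ∈ gen ((bothPred G).sys.base (L i)) P (pw (pw X n) m)
        (PH (baseW T.W (L i)) P 0) := by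
    intro c hc m
    have hc0 : c ∈ (TT.tatePred (G i)).sys.C (pw X n) :=
      ClassPred.sp_of (Q := TT.tatePred (G i)) hc
    obtain ⟨r, hr⟩ := pw_pw X n m
    exact gen_mono (fun x hx => (TT.tatePred (G i)).sys.even hx) (h r _ hr (xpw_mem' _ hc0 m))
  refine Submodule.span_mono ?_
    (desc (both_gop G) (G i) (both_tate G i) τ hc.1 (key hc))
  rintro _ ⟨c', ⟨h1, h2⟩, rfl⟩
  refine ⟨c', ⟨h1, fun i' => fg_tate (G i') (P := P) (both_tate G i') h1.1 fun m => ?_⟩, rfl⟩
  refine gen_descend (L := L i) (bothPred G).sys ?_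
  rw [em_xpw]
  exact key h2 m

/-- The homogeneous combinations of rational Hodge and Tate classes. -/
lemma base_hom (i : ι) {j : ℕ} {c : (baseW T.W (L i)).H X}
    (hc : c ∈ ((bothPred G).sys.base (L i)).C X) (hj : c ∈ (baseW T.W (L i)).gr X (2 * j)) :
    c ∈ Submodule.span (baseW T.W (L i)).K
      {x | ∃ c', BothP G X j c' ∧ em T.W (L i) c' = x} := by
  rw [← proj_same ((baseW T.W (L i)).isInternal X) hj]
  refine TT.base_ind (p := (bothPred G).sys.C X) (P := fun c =>
    H914.proj ((baseW T.W (L i)).isInternal X) (2 * j) c ∈ Submodule.span (baseW T.W (L i)).K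
      {x | ∃ c', BothP G X j c' ∧ em T.W (L i) c' = x}) ?_ ?_ ?_ hc
  · rw [map_zero]; exact Submodule.zero_mem _
  · intro x y hx hy; rw [map_add]; exact Submodule.add_mem _ hx hy
  · intro l a ha
    have h2 : TT.ten (L i) l a = (show (baseW T.W (L i)).K from l) • em T.W (L i) a :=
      tmul_eq (W := T.W) l a
    rw [h2, map_smul]
    refine Submodule.smul_mem _ _ ?_
    refine ClassPred.sp_ind (Q := bothPred G) (q := fun a =>
      H914.proj ((baseW T.W (L i)).isInternal X) (2 * j) (em T.W (L i) a) ∈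
      Submodule.span (baseW T.W (L i)).K
      {x | ∃ c', BothP G X j c' ∧ em T.W (L i) c' = x}) ?_ ?_ ?_ ha
    · intro j' x hx
      by_cases hjj : j' = j
      · subst hjj
        rw [proj_same _ (em_gr hx.1.1)]
        exact Submodule.subset_span ⟨x, hx, rfl⟩
      · rw [proj_ne _ (em_gr hx.1.1) (by omega)]
        exact Submodule.zero_mem _
    · rw [em_zero, map_zero]; exact Submodule.zero_mem _
    · intro x y hx hy; rw [em_add, map_add]; exact Submodule.add_mem _ hx hy

/-- **The zero-one law.** -/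
theorem law (τ : ∀ i, L i →+* ℂ) (X : 𝒱.Obj) [Nontrivial (T.W.H X)] :
    ∃ (M A : ℕ∞) (B : ι → ℕ∞), 1 ≤ M ∧
      HasIndex (fun n => dimBy T.W (BothP G) (pw X n))
        (fun n => dimBy T.W (IsMotivated T.W) (pw X n)) M ∧
      (M = 1 ↔ ∀ n j c, BothP G (pw X n) j c → IsMotivated T.W (pw X n) j c) ∧
      (A = 1 ∨ A = ⊤) ∧
      HasIndex (fun n => dimBy T.W (IsHodge T) (pw X n))
        (fun n => dimBy T.W (BothP G) (pw X n)) A ∧
      HasIndex (fun n => dimBy T.W (IsHodge T) (pw X n))
        (fun n => dimBy T.W (IsMotivated T.W) (pw X n)) (A * M) ∧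
      (A = 1 ↔ ∀ n j c, IsHodge T (pw X n) j c → BothP G (pw X n) j c) ∧
      ∀ i, (B i = 1 ∨ B i = ⊤) ∧
        HasIndex (fun n => dimBy (baseW T.W (L i)) (TT.IsTate (G i)) (pw X n))
          (fun n => dimBy T.W (BothP G) (pw X n)) (B i) ∧
        HasIndex (fun n => dimBy (baseW T.W (L i)) (TT.IsTate (G i)) (pw X n))
          (fun n => dimBy T.W (IsMotivated T.W) (pw X n)) (B i * M) ∧
        (B i = 1 ↔ ∀ n j c, TT.IsTate (G i) (pw X n) j c →
          c ∈ Submodule.span (baseW T.W (L i)).K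
            {x | ∃ c', BothP G (pw X n) j c' ∧ em T.W (L i) c' = x}) := by
  obtain ⟨M, -, hM1, -, hM, -, -, hMi, -⟩ :=
    (motPred T.W).tower (bothPred G) (fun h => h _ (isSystem_both G)) X
      (fun n => mot_nondeg T (pw X n))
  obtain ⟨A, -, hA1, -, hA, -, -, hAi, -⟩ :=
    (bothPred G).tower (hodgePred T) (fun h => h.1) X (fun n => both_nondeg G (pw X n))
  have hr0 : ∀ n, dimBy T.W (BothP G) (pw X n) ≠ 0 := fun n => by
    have h := Sys.finrank_pos_pw (S := (bothPred G).sys) (X := X) n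
    have h2 : dimBy T.W (BothP G) (pw X n) = finrank T.W.K ((bothPred G).sys.C (pw X n)) := rfl
    omega
  have hA' : A = 1 ∨ A = ⊤ := by
    by_cases h : A = ⊤
    · exact Or.inr h
    · left
      rw [hAi]
      obtain ⟨m, P, -, hP⟩ := genBy_of_index (S := (bothPred G).sys) (S' := (hodgePred T).sys)
        (ClassPred.sys_le (Q := bothPred G) (R := hodgePred T) fun h => h.1) X
        (fun n => both_nondeg G (pw X n)) hA h
      exact fun n j c hc => hodge_le G hP hc
  have hB : ∀ i, ∃ B : ℕ∞, 1 ≤ B ∧ (B = 1 ∨ B = ⊤) ∧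
      HasIndex (fun n => dimBy (baseW T.W (L i)) (TT.IsTate (G i)) (pw X n))
        (fun n => dimBy T.W (BothP G) (pw X n)) B ∧
      (B = 1 ↔ ∀ n j c, TT.IsTate (G i) (pw X n) j c →
        c ∈ Submodule.span (baseW T.W (L i)).K
          {x | ∃ c', BothP G (pw X n) j c' ∧ em T.W (L i) c' = x}) := by
    intro i
    have hnt : Nontrivial ((baseW T.W (L i)).H X) := by
      obtain ⟨x, hx⟩ := exists_ne (0 : T.W.H X)
      exact ⟨em T.W (L i) x, 0, fun h0 => hx (em_injective h0)⟩
    have hnd : ∀ n, ((bothPred G).sys.base (L i)).Nondeg (pw X n) := fun n =>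
      Sys.Nondeg.base (L i) (both_nondeg G (pw X n))
    obtain ⟨B, h1, h2, -, h4⟩ := Sys.stab_index (S := (bothPred G).sys.base (L i)) (X := X) hnd
      (Sys.stab_of_le (S := (bothPred G).sys.base (L i)) (T := (TT.tatePred (G i)).sys)
        (base_le_tate G i)) fun n => base_le_tate G i _
    have h2' : HasIndex
        (fun n => finrank (baseW T.W (L i)).K ((TT.tatePred (G i)).sys.C (pw X n)))
        (fun n => finrank (baseW T.W (L i)).K (((bothPred G).sys.base (L i)).C (pw X n))) B := h2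
    have h3 : HasIndex (fun n => dimBy (baseW T.W (L i)) (TT.IsTate (G i)) (pw X n))
        (fun n => dimBy T.W (BothP G) (pw X n)) B := by
      have e1 : (fun n => finrank (baseW T.W (L i)).K
          (((bothPred G).sys.base (L i)).C (pw X n))) =
          fun n => dimBy T.W (BothP G) (pw X n) := funext fun n => Sys.finrank_base (L i) (pw X n)
      rw [e1] at h2'
      exact h2'
    have h5 : B = 1 ↔ ∀ n j c, TT.IsTate (G i) (pw X n) j c →
        c ∈ Submodule.span (baseW T.W (L i)).K
          {x | ∃ c', BothP G (pw X n) j c' ∧ em T.W (L i) c' = x} := by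
      rw [h4]
      constructor
      · intro h n j c hc
        have hc0 : c ∈ ((bothPred G).sys.base (L i)).C (pw X n) := by
          rw [← h n]
          exact ClassPred.sp_of (Q := TT.tatePred (G i)) hc
        exact base_hom G i hc0 hc.1
      · intro h n
        refine le_antisymm ?_ (base_le_tate G i _)
        intro c hc
        refine ClassPred.sp_ind (Q := TT.tatePred (G i))
          (q := fun c => c ∈ ((bothPred G).sys.base (L i)).C (pw X n)) ?_ ?_ ?_ hc
        · intro j x hx
          refine (Submodule.span_le (p := ((bothPred G).sys.base (L i)).C (pw X n))).2 ?_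
            (h n j x hx)
          rintro _ ⟨c', hc', rfl⟩
          exact Submodule.tmul_mem_baseChange_of_mem _ (ClassPred.sp_of (Q := bothPred G) hc')
        · exact Submodule.zero_mem _
        · intro x y hx hy; exact Submodule.add_mem _ hx hy
    refine ⟨B, h1, ?_, h3, h5⟩
    by_cases h : B = ⊤
    · exact Or.inr h
    · left
      rw [h5]
      obtain ⟨m, P, -, hP⟩ := genBy_of_index (S := (bothPred G).sys.base (L i))
        (S' := (TT.tatePred (G i)).sys) (base_le_tate G i) X hnd h2' h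
      exact fun n j c hc => tate_le G i (τ i) hP hc
  choose B hB1 hB2 hB3 hB4 using hB
  exact ⟨M, A, B, hM1, hM, hMi, hA', hA, hasIndex_mul hA hM hr0 hA1 hM1, hAi, fun i =>
    ⟨hB2 i, hB3 i, hasIndex_mul (hB3 i) hM hr0 (hB1 i) hM1, hB4 i⟩⟩

end Pool.Agent.H694.ZO
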