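import Pool.Agent.H694.TT.Pred
import Pool.Agent.Y121.AH.ZeroOne

/-!
# The normalised action of the Galois group
-/

open CategoryTheory AlgebraicGeometry

universe u w

namespace Pool.Agent.H694.ZO

open Module
open Pool.Agent.H914 Pool.Agent.H914.VarClass Pool.Agent.H914.VarClass.Obj
  Pool.Agent.H914.WeilCohomology
open Pool.Agent.Y133.Half (PH PH.of' PH.map PH.mul PH.push PH.ind xp tr_xp pw ClassPred Sys)
open Pool.Agent.Y121.AH (dia dia_apply gen xpw xpw_even tr_xpw)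

section Ev

variable {Γ : Type*} [Group Γ]

/-- A property of the elements of a group holds on a subgroup of finite index. -/
def Fin' (p : Γ → Prop) : Prop := ∃ Δ : Subgroup Γ, Δ.FiniteIndex ∧ ∀ g ∈ Δ, p g

lemma Fin'.of {Δ : Subgroup Γ} (h : Δ.FiniteIndex) : Fin' fun g => g ∈ Δ := ⟨Δ, h, fun _ h => h⟩

lemma Fin'.mono {p q : Γ → Prop} (h : Fin' p) (hpq : ∀ g, p g → q g) : Fin' q := by
  obtain ⟨Δ, hΔ, h⟩ := h
  exact ⟨Δ, hΔ, fun g hg => hpq g (h g hg)⟩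

lemma Fin'.and {p q : Γ → Prop} (h : Fin' p) (h' : Fin' q) : Fin' fun g => p g ∧ q g := by
  obtain ⟨Δ, hΔ, h⟩ := h
  obtain ⟨Δ', hΔ', h'⟩ := h'
  exact ⟨Δ ⊓ Δ', TT.finiteIndex_inf hΔ hΔ', fun g hg => ⟨h g hg.1, h' g hg.2⟩⟩

lemma Fin'.triv {p : Γ → Prop} (h : ∀ g, p g) : Fin' p := ⟨⊤, inferInstance, fun g _ => h g⟩

end Ev

variable {k : Type u} [Field k] {𝒱 : VarClass k} {ops : CycleOps 𝒱}
  {W : WeilCohomology.{u, 0} ops} (G : TT.GaloisSystem.{u, 0, w} W) {X Y P Z : 𝒱.Obj}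

/-- The diagonal part of the normalised action. -/
noncomputable def dgo (X : 𝒱.Obj) (g : G.Γ) : Module.End W.K (W.H X) :=
  dia (W.isInternal X) fun i => ((G.χ g : W.K)⁻¹) ^ (i / 2)

open Classical in
/-- The normalised action. -/
noncomputable def nop (X : 𝒱.Obj) (g : G.Γ) : Module.End W.K (W.H X) :=
  if h : g ∈ G.dom X then (G.ρ X ⟨g, h⟩).toLinearMap ∘ₗ dgo G X g else LinearMap.id

variable {G}

lemma nop_gr {g : G.Γ} (h : g ∈ G.dom X) {i : ℕ} {x : W.H X} (hx : x ∈ W.gr X i) :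
    nop G X g x = ((G.χ g : W.K)⁻¹) ^ (i / 2) • G.ρ X ⟨g, h⟩ x := by
  rw [nop, dif_pos h]
  change G.ρ X ⟨g, h⟩ (dgo G X g x) = _
  rw [dgo, dia_apply (W.isInternal X) _ hx, map_smul]

lemma nop_mem {g : G.Γ} (h : g ∈ G.dom X) {i : ℕ} {x : W.H X} (hx : x ∈ W.gr X i) :
    nop G X g x ∈ W.gr X i := by
  rw [nop_gr h hx]
  exact Submodule.smul_mem _ _ ((G.acts X).gr_mem _ _ _ hx)

lemma nop_even {g : G.Γ} (h : g ∈ G.dom X) {x : W.H X} (hx : x ∈ PH W X 0) :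
    nop G X g x ∈ PH W X 0 := by
  refine PH.ind (p := fun x => nop G X g x ∈ PH W X 0) ?_ ?_ ?_ hx
  · intro i hi x hx
    exact PH.of' hi (nop_mem h hx)
  · rw [map_zero]; exact Submodule.zero_mem _
  · intro x y hx hy; rw [map_add]; exact Submodule.add_mem _ hx hy

lemma nop_comp {g g' : G.Γ} (h : g ∈ G.dom X) (h' : g' ∈ G.dom X) (x : W.H X) :
    nop G X (g * g') x = nop G X g (nop G X g' x) := by
  refine gr_induction (W.isInternal X)
    (p := fun x => nop G X (g * g') x = nop G X g (nop G X g' x)) ?_ ?_ x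
  · intro i x hx
    have h1 := nop_mem h' hx
    rw [nop_gr (mul_mem h h') hx, nop_gr h h1, nop_gr h' hx, map_smul, smul_smul, ← mul_pow]
    have e1 : (⟨g * g', mul_mem h h'⟩ : G.dom X) = ⟨g, h⟩ * ⟨g', h'⟩ := rfl
    rw [e1, map_mul (G.ρ X), map_mul G.χ]
    have e2 : (((G.χ g * G.χ g' : W.Kˣ) : W.K))⁻¹ =
        ((G.χ g : W.K)⁻¹) * ((G.χ g' : W.K)⁻¹) := by
      rw [Units.val_mul, mul_inv]
    rw [e2]
    rfl
  · intro a b ha hb
    rw [map_add, map_add, map_add, ha, hb]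

lemma nop_one (x : W.H X) : nop G X 1 x = x := by
  refine gr_induction (W.isInternal X) (p := fun x => nop G X 1 x = x) ?_ ?_ x
  · intro i x hx
    have e1 : (⟨1, one_mem _⟩ : G.dom X) = 1 := rfl
    rw [nop_gr (one_mem _) hx, e1, map_one (G.ρ X), map_one G.χ, Units.val_one, inv_one, one_pow,
      one_smul]
    rfl
  · intro a b ha hb
    rw [map_add, ha, hb]

lemma nop_inv_nop {g : G.Γ} (h : g ∈ G.dom X) (x : W.H X) :
    nop G X g⁻¹ (nop G X g x) = x := by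
  rw [← nop_comp (inv_mem h) h, inv_mul_cancel, nop_one]

lemma nop_nop_inv {g : G.Γ} (h : g ∈ G.dom X) (x : W.H X) :
    nop G X g (nop G X g⁻¹ x) = x := by
  rw [← nop_comp h (inv_mem h), mul_inv_cancel, nop_one]

lemma nop_mul {g : G.Γ} (h : g ∈ G.dom X) {x : W.H X} (hx : x ∈ PH W X 0) (y : W.H X) :
    nop G X g (x * y) = nop G X g x * nop G X g y := by
  refine PH.ind (p := fun x => nop G X g (x * y) = nop G X g x * nop G X g y) ?_ ?_ ?_ hx
  · intro i hi x hx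
    refine gr_induction (W.isInternal X)
      (p := fun y => nop G X g (x * y) = nop G X g x * nop G X g y) ?_ ?_ y
    · intro j y hy
      rw [nop_gr h (W.mul_mem hx hy), nop_gr h hx, nop_gr h hy, smul_mul_smul_comm, ← pow_add,
        map_mul]
      congr 2
      omega
    · intro a b ha hb
      rw [mul_add, map_add, map_add, mul_add, ha, hb]
  · rw [zero_mul, map_zero, zero_mul]
  · intro a b ha hb
    rw [add_mul, map_add, map_add, add_mul, ha, hb]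

lemma tr_nop {g : G.Γ} (h : g ∈ G.dom X) (x : W.H X) : W.tr X (nop G X g x) = W.tr X x := by
  refine gr_induction (W.isInternal X) (p := fun x => W.tr X (nop G X g x) = W.tr X x) ?_ ?_ x
  · intro i x hx
    by_cases hi : i = 2 * X.dim
    · subst hi
      have h1 : (G.χ g : W.K) ^ X.dim ≠ 0 := pow_ne_zero _ (Units.ne_zero _)
      rw [nop_gr h hx, map_smul, (G.acts X).tr_act, Nat.mul_div_cancel_left _ (by norm_num),
        smul_eq_mul, inv_pow, ← mul_assoc]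
      change ((G.χ g : W.K) ^ X.dim)⁻¹ * (G.χ g : W.K) ^ X.dim * W.tr X x = W.tr X x
      rw [inv_mul_cancel₀ h1, one_mul]
    · rw [W.tr_eq_zero hx hi, W.tr_eq_zero (nop_mem h hx) hi]
  · intro a b ha hb
    rw [map_add, map_add, map_add, ha, hb]

lemma dom_fin (G : TT.GaloisSystem.{u, 0, w} W) (X : 𝒱.Obj) : Fin' fun g => g ∈ G.dom X :=
  Fin'.of (G.acts X).finite

lemma nop_map (f : X ⟶ Y) : Fin' fun g : G.Γ => ∀ y, nop G X g (W.map f y) = W.map f (nop G Y g y) := by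
  obtain ⟨Δ, hΔ, h⟩ := G.map_act f
  refine (((dom_fin G X).and (dom_fin G Y)).and (Fin'.of hΔ)).mono ?_
  rintro g ⟨⟨h1, h2⟩, h3⟩ y
  refine gr_induction (W.isInternal Y)
    (p := fun y => nop G X g (W.map f y) = W.map f (nop G Y g y)) ?_ ?_ y
  · intro i y hy
    rw [nop_gr h1 (W.map_mem f hy), nop_gr h2 hy, map_smul, h ⟨g, h1⟩ ⟨g, h2⟩ rfl h3]
  · intro a b ha hb
    rw [map_add, map_add, map_add, map_add, ha, hb]

lemma nop_tate {j : ℕ} {z : W.H X} (hz : TT.IsTate G X j z) :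
    Fin' fun g : G.Γ => nop G X g z = z := by
  obtain ⟨hz, Δ, hΔ, h⟩ := hz
  refine ((dom_fin G X).and (Fin'.of hΔ)).mono ?_
  rintro g ⟨h1, h2⟩
  have h3 : (G.χ g : W.K) ^ j ≠ 0 := pow_ne_zero _ (Units.ne_zero _)
  rw [nop_gr h1 hz, h ⟨g, h1⟩ h2, Nat.mul_div_cancel_left _ (by norm_num), smul_smul, inv_pow]
  change (((G.χ g : W.K) ^ j)⁻¹ * (G.χ g : W.K) ^ j) • z = z
  rw [inv_mul_cancel₀ h3, one_smul]

lemma nop_sys {z : W.H X} (hz : z ∈ (TT.tatePred G).sys.C X) :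
    Fin' fun g : G.Γ => nop G X g z = z := by
  refine ClassPred.sp_ind (Q := TT.tatePred G) (q := fun z => Fin' fun g : G.Γ => nop G X g z = z)
    ?_ ?_ ?_ hz
  · intro j x hx
    exact nop_tate hx
  · exact Fin'.triv fun g => map_zero _
  · intro x y hx hy
    refine (hx.and hy).mono ?_
    rintro g ⟨h1, h2⟩
    rw [map_add, h1, h2]

lemma tate_of_nop {j : ℕ} {z : W.H X} (hz : z ∈ W.gr X (2 * j))
    (h : Fin' fun g : G.Γ => nop G X g z = z) : TT.IsTate G X j z := by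
  obtain ⟨Δ, hΔ, h⟩ := h
  refine ⟨hz, Δ, hΔ, fun g hg => ?_⟩
  have h3 : (G.χ g : W.K) ^ j ≠ 0 := pow_ne_zero _ (Units.ne_zero _)
  have h1 : nop G X (g : G.Γ) z = z := h g hg
  rw [nop_gr g.2 hz, Nat.mul_div_cancel_left _ (by norm_num), inv_pow] at h1
  have h2 : G.ρ X ⟨g, g.2⟩ z = (G.χ g : W.K) ^ j • z := by
    conv_rhs => rw [← h1]
    rw [smul_smul, mul_inv_cancel₀ h3, one_smul]
  exact h2

lemma nop_xp : Fin' fun g : G.Γ => ∀ (a : W.H X) (b : W.H Y), a ∈ PH W X 0 →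
    nop G (X.prod Y) g (xp W a b) = xp W (nop G X g a) (nop G Y g b) := by
  refine (((dom_fin G (X.prod Y)).and (nop_map (fst X Y))).and (nop_map (snd X Y))).mono ?_
  rintro g ⟨⟨h1, h2⟩, h3⟩ a b ha
  rw [xp, nop_mul h1 (PH.map _ ha), h2, h3, xp]

lemma nop_corr {z : W.H (P.prod Z)} (hz : z ∈ (TT.tatePred G).sys.C (P.prod Z)) :
    Fin' fun g : G.Γ => ∀ t ∈ PH W P 0, nop G Z g (W.corr z t) = W.corr z (nop G P g t) := by
  refine ((((dom_fin G P).and (dom_fin G Z)).and (dom_fin G (P.prod Z))).and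
    ((nop_sys hz).and (nop_xp (X := P) (Y := Z)))).mono ?_
  rintro g ⟨⟨⟨hP, hZ⟩, hPZ⟩, h1, h2⟩ t ht
  have hz0 : z ∈ PH W (P.prod Z) 0 := (TT.tatePred G).sys.even hz
  have hc : ∀ (t : W.H P) (b : W.H Z), W.tr Z (W.corr z t * b) =
      W.tr (P.prod Z) (z * xp W t b) := by
    intro t b
    rw [corr_apply, W.tr_push, xp, mul_assoc]
  have hce : W.corr z t ∈ PH W Z 0 := by
    rw [corr_apply]
    exact PH.push _ (PH.mul (a := 0) (b := 0) hz0 (PH.map _ ht))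
  apply W.tr_ext
  intro b
  obtain ⟨b, rfl⟩ : ∃ b', nop G Z g b' = b := ⟨_, nop_nop_inv hZ b⟩
  rw [← nop_mul hZ hce, tr_nop hZ, hc, hc, ← h2 _ _ ht]
  conv_rhs => rw [← h1]
  rw [← nop_mul hPZ hz0, tr_nop hPZ]

lemma nop_xpw : ∀ m, Fin' fun g : G.Γ => ∀ c ∈ PH W Z 0,
    nop G (pw Z m) g (xpw W c m) = xpw W (nop G Z g c) m
  | 0 => Fin'.triv fun g c _ => rfl
  | m + 1 => by
    refine ((nop_xpw m).and (nop_xp (X := pw Z m) (Y := Z))).mono ?_
    rintro g ⟨h1, h2⟩ c hc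
    have h3 := h2 (xpw W c m) c (xpw_even hc m)
    rw [h1 c hc] at h3
    exact h3

end Pool.Agent.H694.ZO
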