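import Pool.Agent.H694.ZO.SDefs
import Pool.Agent.H694.ZO.Law
import Pool.Agent.Y121.AHS.Conv

/-!
# The conversion of the definitions
-/

open CategoryTheory AlgebraicGeometry TensorProduct

universe u w

namespace Pool.Agent.H694.ZS

open Pool.Agent.H914 Pool.Agent.H914.VarClass Pool.Agent.H914.VarClass.Obj
  Pool.Agent.H914.WeilCohomology Pool.Agent.R920.MT Pool.Agent.Y121.AHS
open Pool.Agent.Y121
open Pool.Agent.Y133.Half (pw)

variable {k : Type u} [Field k] {𝒱 : VarClass k} {ops : CycleOps 𝒱}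

section

variable {W : WeilCohomology.{u, 0} ops} {L : Type} [Field L] [Algebra W.K L] {X Y : 𝒱.Obj}

/-- The linear map. -/
noncomputable def autL {x : L} {s : HL W L X → HL W L X} (h : IsAut x s) :
    (baseW W L).H X →ₗ[(baseW W L).K] (baseW W L).H X where
  toFun a := (show (baseW W L).H X from s a)
  map_add' := h.add
  map_smul' := h.smul

/-- The automorphism. -/
noncomputable def autE {x : L} {s : HL W L X → HL W L X} (h : IsAut x s) :
    (baseW W L).H X ≃ₐ[(baseW W L).K] (baseW W L).H X :=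
  AlgEquiv.ofBijective
    (AlgHom.ofLinearMap (autL h)
      (by
        obtain ⟨b, hb⟩ := h.bij.2 (show HL W L X from (1 : (baseW W L).H X))
        have hb' : autL h (show (baseW W L).H X from b) = 1 := hb
        have h1 : ∀ y, autL h (1 * y) = autL h 1 * autL h y := fun y => h.mul _ _
        have h2 := h1 (show (baseW W L).H X from b)
        rw [one_mul, hb', mul_one] at h2
        exact h2.symm)
      h.mul)
    h.bij

lemma autE_apply {x : L} {s : HL W L X → HL W L X} (h : IsAut x s) (c : HL W L X) :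
    autE h (show (baseW W L).H X from c) = (show (baseW W L).H X from s c) := rfl

variable (G : GaloisAction.{u, w} W L)

/-- The character. -/
noncomputable def chiHom : G.Γ →* Lˣ :=
  MonoidHom.mk' (fun g => Units.mk0 (G.χ g) (G.ne g)) fun g h => Units.ext (G.char g h)

/-- The action of the subgroup. -/
noncomputable def actHom (X : 𝒱.Obj) :
    G.dom X →* ((baseW W L).H X ≃ₐ[(baseW W L).K] (baseW W L).H X) :=
  MonoidHom.mk' (fun g => autE (G.aut X g g.2)) fun g h =>
    AlgEquiv.ext fun c => G.act_mul X g g.2 h h.2 c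

/-- The action on the theory with the extended coefficients. -/
noncomputable def toSys : TT.GaloisSystem.{u, 0, w} (baseW W L) where
  Γ := G.Γ
  χ := chiHom G
  dom := G.dom
  ρ := actHom G
  acts X :=
    { finite := G.finite X
      gr_mem := fun g i a ha => (G.aut X g g.2).deg i a ha
      tr_act := fun g a => (G.aut X g g.2).tr a }
  map_act {X Y} f := by
    obtain ⟨Δ, hΔ, h⟩ := G.map X Y f
    refine ⟨Δ, hΔ, fun g g' hgg hg b => ?_⟩
    have h1 := h g hg ⟨g.2, hgg ▸ g'.2⟩ b
    rw [hgg] at h1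
    have e1 := map_eq W L f b
    have e2 := map_eq W L f (G.act Y g' b)
    have h2 : (show (baseW W L).H X from G.act X g ((baseW W L).map f b)) =
        (baseW W L).map f (show (baseW W L).H Y from G.act Y g' b) := by
      rw [hgg]
      exact ((congrArg (fun y => (show (baseW W L).H X from G.act X g' y)) e1).trans h1).trans
        e2.symm
    exact h2
  cl_act {X j z} hz := by
    obtain ⟨Δ, hΔ, h⟩ := G.cyc X j z hz
    exact ⟨Δ, hΔ, fun g hg => h g.1 hg g.2⟩

lemma isTate_iff {j : ℕ} {c : HL W L X} :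
    IsTate G X j c ↔ TT.IsTate (toSys G) X j (show (baseW W L).H X from c) := by
  unfold IsTate TT.IsTate
  refine and_congr_right fun _ => ?_
  constructor
  · rintro ⟨Δ, hΔ, h⟩
    exact ⟨Δ, hΔ, fun g hg => h g.1 hg g.2⟩
  · rintro ⟨Δ, hΔ, h⟩
    exact ⟨Δ, hΔ, fun g hg hd => h ⟨g, hd⟩ hg⟩

lemma tateDim_eq (X : 𝒱.Obj) :
    tateDim G X = Pool.Agent.Y133.Half.dimBy (baseW W L) (TT.IsTate (toSys G)) X := by
  have : {c : HL W L X | ∃ j, IsTate G X j c} =
      {c | ∃ j, TT.IsTate (toSys G) X j (show (baseW W L).H X from c)} := by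
    ext c
    exact exists_congr fun j => isTate_iff G
  unfold tateDim
  rw [this]
  rfl

end

variable {T : HodgeTheory ops} (D : Actions.{u, w} T)

instance instAlgH' (i : D.ι) : Algebra (toH T).W.K (D.L i) := D.alg i

/-- The family of actions. -/
noncomputable def toF (i : D.ι) : TT.GaloisSystem.{u, 0, w} (baseW (toH T).W (D.L i)) :=
  toSys (D.G i)

lemma both_iff {X : 𝒱.Obj} {j : ℕ} {c : T.W.H X} :
    ZO.BothP (T := toH T) (toF D) X j c ↔ IsHodgeTate D X j c :=
  and_congr Iff.rfl (forall_congr' fun i => (isTate_iff (D.G i)).symm)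

lemma comb_iff {X : 𝒱.Obj} {i : D.ι} {j : ℕ} {c : HL T.W (D.L i) X} :
    CombOf (D.L i) (IsHodgeTate D) j c ↔
      (show (baseW T.W (D.L i)).H X from c) ∈ Submodule.span (baseW T.W (D.L i)).K
        {x | ∃ c', ZO.BothP (T := toH T) (toF D) X j c' ∧ AH.em T.W (D.L i) c' = x} := by
  have h : (emL T.W (D.L i) '' {a | IsHodgeTate D X j a} : Set (HL T.W (D.L i) X)) =
      {x | ∃ c', ZO.BothP (T := toH T) (toF D) X j c' ∧
        (AH.em T.W (D.L i) c' : HL T.W (D.L i) X) = x} := by
    ext x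
    exact exists_congr fun a => and_congr (both_iff D).symm Iff.rfl
  unfold CombOf
  rw [h]
  rfl

/-- **The zero-one law.** -/
theorem law (X : 𝒱.Obj) [Nontrivial (T.W.H X)] {m r h : ℕ → ℕ} {t : D.ι → ℕ → ℕ}
    (hm : ∀ n, m n = dimBy T.W (IsMotivated T.W) (pw X n))
    (hr : ∀ n, r n = dimBy T.W (IsHodgeTate D) (pw X n))
    (hh : ∀ n, h n = dimBy T.W (IsHodge T) (pw X n))
    (ht : ∀ i n, t i n = tateDim (D.G i) (pw X n)) :
    ∃ (M A : ℕ∞) (B : D.ι → ℕ∞), 1 ≤ M ∧ HasIndex r m M ∧ (M = 1 ↔ AreMotivated D X) ∧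
      (A = 1 ∨ A = ⊤) ∧ HasIndex h r A ∧ HasIndex h m (A * M) ∧ (A = 1 ↔ HodgeAreTate D X) ∧
      ∀ i, (B i = 1 ∨ B i = ⊤) ∧ HasIndex (t i) r (B i) ∧ HasIndex (t i) m (B i * M) ∧
        (B i = 1 ↔ TateAreHodge D i X) := by
  have hn : Nontrivial ((toH T).W.H X) := ‹_›
  obtain ⟨M, A, B, h1, h2, h3, h4, h5, h6, h7, h8⟩ :=
    ZO.law (T := toH T) (toF D) (fun i => (D.emb i).some) X
  have em : m = fun n => Pool.Agent.Y133.Half.dimBy (toH T).W (IsMotivated (toH T).W) (pw X n) :=
    funext hm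
  have er : r = fun n => Pool.Agent.Y133.Half.dimBy (toH T).W (ZO.BothP (toF D)) (pw X n) := by
    funext n
    rw [hr]
    have e : IsHodgeTate D = ZO.BothP (T := toH T) (toF D) := by
      funext X j c
      exact propext (both_iff D).symm
    rw [e]
    rfl
  have eh : h = fun n => Pool.Agent.Y133.Half.dimBy (toH T).W (AH.IsHodge (toH T)) (pw X n) :=
    funext hh
  have et : ∀ i, t i = fun n => Pool.Agent.Y133.Half.dimBy (baseW (toH T).W (D.L i))
      (TT.IsTate (toF D i)) (pw X n) := fun i => by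
    funext n
    rw [ht]
    exact tateDim_eq (D.G i) (pw X n)
  rw [← er, ← em] at h2
  rw [← eh, ← er] at h5
  rw [← eh, ← em] at h6
  refine ⟨M, A, B, h1, h2, ?_, h4, h5, h6, ?_, fun i => ?_⟩
  · rw [h3]
    exact forall_congr' fun n => forall_congr' fun j => forall_congr' fun c =>
      imp_congr (both_iff D) Iff.rfl
  · rw [h7]
    exact forall_congr' fun n => forall_congr' fun j => forall_congr' fun c =>
      imp_congr Iff.rfl (both_iff D)
  · obtain ⟨k1, k2, k3, k4⟩ := h8 i
    rw [← et, ← er] at k2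
    rw [← et, ← em] at k3
    refine ⟨k1, k2, k3, ?_⟩
    rw [k4]
    exact forall_congr' fun n => forall_congr' fun j => forall_congr' fun c =>
      imp_congr (isTate_iff (D.G i)).symm (comb_iff D).symm

end Pool.Agent.H694.ZS
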