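import Pool.Agent.Y121.AHS.Defs
import Pool.Agent.R920.MT.Defs
import Pool.Agent.Y133.Half.PwDefs

/-!
# Galois actions on the cohomology and Tate classes: definitions

In the intended use `k` is the algebraic closure, in the complex numbers, of a field `k₁` finitely
generated over the rational numbers, the varieties are the smooth projective ones over `k`, and `W`
is the cohomology `X ↦ H(X(ℂ), ℚ)`. For a field `L` containing `ℚ`, `HL W L X` is the cohomology
with coefficients in `L`; for `L = ℚ_ℓ` it is the `ℓ`-adic étale cohomology, by the comparison
theorem, and the Galois group of `k₁` acts on it.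
-/

open CategoryTheory AlgebraicGeometry Filter Topology

open scoped ENNReal

universe u w

namespace Pool.Agent.H694.ZS

open Pool.Agent.H914 Pool.Agent.H914.VarClass Pool.Agent.H914.VarClass.Obj
  Pool.Agent.H914.WeilCohomology Pool.Agent.R920.MT Pool.Agent.Y121.AHS
open Pool.Agent.Y133.Half (pw)

/-- The quotients `t n / s n` converge to `N`, an element of `ℕ ∪ {∞}`. -/
def HasIndex (t s : ℕ → ℕ) (N : ℕ∞) : Prop :=
  Tendsto (fun n => (t n : ℝ≥0∞) / s n) atTop (𝓝 (N : ℝ≥0∞))

variable {k : Type u} [Field k] {𝒱 : VarClass k} {ops : CycleOps 𝒱}

/-- The number of linearly independent classes (of all codimensions) with the property `P` on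
`X`. -/
noncomputable def dimBy (W : WeilCohomology.{u, 0} ops) (P : Property W) (X : 𝒱.Obj) : ℕ :=
  Set.finrank W.K {c : W.H X | ∃ j, P X j c}

section

variable {W : WeilCohomology.{u, 0} ops} {L : Type} [Field L] [Algebra W.K L] {X Y : 𝒱.Obj}

/-- The map `s` multiplies `c` by `x ^ j`. -/
def Scales (x : L) (j : ℕ) (c : HL W L X) (s : HL W L X → HL W L X) : Prop := s c = twL x j c

/-- The map `s` is an automorphism of the cohomology of `X` with coefficients in `L` which respects
the products and the degrees and multiplies the trace by `x ^ dim X`. -/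
structure IsAut (x : L) (s : HL W L X → HL W L X) : Prop where
  bij : Function.Bijective s
  add : ∀ b c, s (b + c) = s b + s c
  smul : ∀ l c, s (smL l c) = smL l (s c)
  mul : ∀ b c, s (mulL b c) = mulL (s b) (s c)
  deg : ∀ i c, IsDeg i c → IsDeg i (s c)
  tr : ∀ c, trL (s c) = x ^ X.dim * trL c

/-- The pull-back by `f` commutes with the maps `s` and `s'`. -/
def Comm (f : X ⟶ Y) (s : HL W L X → HL W L X) (s' : HL W L Y → HL W L Y) : Prop :=
  ∀ b, s (mapL f b) = mapL f (s' b)

end

/-- A property of the elements of the subgroup `dom` holds for the elements of a subgroup of finite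
index. -/
def UpToFin {Γ : Type w} [Group Γ] (dom : Subgroup Γ) (p : Γ → Prop) : Prop :=
  ∃ Δ : Subgroup Γ, Δ.FiniteIndex ∧ ∀ g ∈ Δ, g ∈ dom → p g

/-- The action of the Galois group `Γ` of `k₁` on the cohomology, with coefficients in `L`, of the
varieties over `k`. Each variety `X` has a model over a finite extension of `k₁`, so a subgroup
`dom X` of finite index of `Γ` acts on the cohomology of `X`, respecting the products and the
degrees; the effect on the trace is given by the power `dim X` of a character `χ` (the inverse of
the cyclotomic character). Morphisms and cycles are defined over finite extensions: pull-backs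
commute with the action of a subgroup of finite index, and a subgroup of finite index multiplies the
class of a cycle of codimension `j` by `χ ^ j`. -/
structure GaloisAction (W : WeilCohomology.{u, 0} ops) (L : Type) [Field L] [Algebra W.K L] where
  /-- the group -/
  Γ : Type w
  [group : Group Γ]
  /-- the character -/
  χ : Γ → L
  ne : ∀ g, χ g ≠ 0
  char : ∀ g h, χ (g * h) = χ g * χ h
  /-- the subgroups -/
  dom : 𝒱.Obj → Subgroup Γ
  /-- the actions (used for the elements of `dom X` only) -/
  act : ∀ X, Γ → HL W L X → HL W L X
  finite : ∀ X, (dom X).FiniteIndex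
  act_mul : ∀ X, ∀ g ∈ dom X, ∀ h ∈ dom X, ∀ c, act X (g * h) c = act X g (act X h c)
  aut : ∀ X, ∀ g ∈ dom X, IsAut (χ g) (act X g)
  map : ∀ (X Y : 𝒱.Obj) (f : X ⟶ Y),
    UpToFin (dom X ⊓ dom Y) fun g => Comm f (act X g) (act Y g)
  cyc : ∀ (X : 𝒱.Obj) (j : ℕ) (z : X.Cycles), X.IsCyc j z →
    UpToFin (dom X) fun g => Scales (χ g) j (emL W L (W.cl X z)) (act X g)

attribute [instance] GaloisAction.group

section

variable {W : WeilCohomology.{u, 0} ops} {L : Type} [Field L] [Algebra W.K L]

/-- The Tate classes of codimension `j` on `X`: the classes `c` of degree `2 j` such that `g c` is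
`χ(g) ^ j c` for all `g` in a subgroup of finite index. -/
def IsTate (G : GaloisAction.{u, w} W L) (X : 𝒱.Obj) (j : ℕ) (c : HL W L X) : Prop :=
  IsDeg (2 * j) c ∧ UpToFin (G.dom X) fun g => Scales (G.χ g) j c (G.act X g)

/-- The number of linearly independent Tate classes (of all codimensions) on `X`. -/
noncomputable def tateDim (G : GaloisAction.{u, w} W L) (X : 𝒱.Obj) : ℕ :=
  Set.finrank L {c | ∃ j, IsTate G X j c}

/-- The class `c` is a linear combination, with coefficients in `L`, of rational classes with the
property `P`. -/
def CombOf (L : Type) [Field L] [Algebra W.K L] (P : Property W) {X : 𝒱.Obj} (j : ℕ)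
    (c : HL W L X) : Prop :=
  c ∈ Submodule.span L (emL W L '' {a | P X j a})

end

/-- A family of Galois actions on the cohomology with coefficients in fields which can be embedded
into the complex numbers (in the intended use, one for each prime number `ℓ`, with coefficients in
`ℚ_ℓ`, or one for a single `ℓ`). -/
structure Actions (T : HodgeTheory ops) where
  /-- the index set -/
  ι : Type
  /-- the coefficients -/
  L : ι → Type
  [field : ∀ i, Field (L i)]
  [alg : ∀ i, Algebra T.W.K (L i)]
  emb : ∀ i, Nonempty (L i →+* ℂ)
  /-- the actions -/
  G : ∀ i, GaloisAction.{u, w} T.W (L i)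

attribute [instance] Actions.field Actions.alg

variable {T : HodgeTheory ops} (D : Actions.{u, w} T)

/-- The rational classes which are Hodge classes and Tate classes, for all given Galois actions. -/
def IsHodgeTate : Property T.W := fun X j c =>
  IsHodge T X j c ∧ ∀ i, IsTate (D.G i) X j (emL T.W (D.L i) c)

/-- All rational classes on powers of `X` which are Hodge classes and Tate classes are motivated. -/
def AreMotivated (X : 𝒱.Obj) : Prop :=
  ∀ n j c, IsHodgeTate D (pw X n) j c → IsMotivated T.W (pw X n) j c

/-- All Hodge classes on all powers of `X` are Tate classes, for all given Galois actions. -/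
def HodgeAreTate (X : 𝒱.Obj) : Prop :=
  ∀ n j c, IsHodge T (pw X n) j c → IsHodgeTate D (pw X n) j c

/-- All Tate classes for the action with index `i` on all powers of `X` are linear combinations, with
coefficients in `L i`, of rational classes which are Hodge classes and Tate classes for all given
actions. -/
def TateAreHodge (i : D.ι) (X : 𝒱.Obj) : Prop :=
  ∀ n j c, IsTate (D.G i) (pw X n) j c → CombOf (D.L i) (IsHodgeTate D) j c

end Pool.Agent.H694.ZS
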