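import Pool.Agent.H694.ZO.Fix
import Pool.Agent.H694.TT.MotBase
import Pool.Agent.H694.TT.Pred

/-!
# Tate classes which are generated over the motivated classes are combinations of Hodge classes
-/

open CategoryTheory AlgebraicGeometry TensorProduct

universe u w

namespace Pool.Agent.H694.ZO

open Module
open Pool.Agent.H914 Pool.Agent.H914.VarClass Pool.Agent.H914.VarClass.Obj
  Pool.Agent.H914.WeilCohomology
open Pool.Agent.Y133.Half Pool.Agent.Y121.AH Pool.Agent.R920.MT

variable {k : Type u} [Field k] {𝒱 : VarClass k} {ops : CycleOps 𝒱} {T : HodgeTheory ops}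
  {L : Type} [Field L] [Algebra T.W.K L] {X P Z : 𝒱.Obj}

/-- The realisation given by an embedding of the coefficients into the complex numbers. -/
noncomputable def rlzPsi (T : HodgeTheory ops) {L : Type} [Field L] [Algebra T.W.K L]
    (τ : L →+* ℂ) : Rlz (baseW T.W L) (CW T) where
  s := kap T.W (ratAlg T τ)
  c := 1
  ne := one_ne_zero
  E X := psi T.W (ratAlg T τ) X
  semi X r a := psi_smul _ r a
  gr ha := psi_gr _ ha
  nat f b := psi_map _ f b
  push f a := by rw [one_pow, one_pow, one_smul, one_smul, psi_push]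

lemma rlzPsi_apply (τ : L →+* ℂ) (x : (baseW T.W L).H X) :
    (rlzPsi T τ).E X x = psi T.W (ratAlg T τ) X x := rfl

/-- The rational motivated classes are fixed. -/
lemma mot_gop {a : T.W.H X} (ha : a ∈ (motPred T.W).sys.C X) :
    gop T X (em T.W ℂ a) = em T.W ℂ a := by
  refine ClassPred.sp_ind (Q := motPred T.W)
    (q := fun a => gop T X (em T.W ℂ a) = em T.W ℂ a) ?_ ?_ ?_ ha
  · intro j x hx
    exact gop_hodge (IsMotivated.hodge hx)
  · rw [em_zero, map_zero]
  · intro x y hx hy
    rw [em_add, map_add, hx, hy]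

lemma mot_fix (τ : L →+* ℂ) (X : 𝒱.Obj) (x : (baseW T.W L).H X)
    (hx : x ∈ (motPred (baseW T.W L)).sys.C X) :
    gop T X ((rlzPsi T τ).E X x) = (rlzPsi T τ).E X x := by
  rw [TT.sys_base] at hx
  refine TT.base_ind (p := (motPred T.W).sys.C X)
    (P := fun x => gop T X ((rlzPsi T τ).E X x) = (rlzPsi T τ).E X x) ?_ ?_ ?_ hx
  · rw [map_zero, map_zero]
  · intro x y hx hy; rw [map_add, map_add, hx, hy]
  · intro l a ha
    have h1 : (rlzPsi T τ).E X (TT.ten L l a) =
        kap T.W (ratAlg T τ) (show (baseW T.W L).K from l) • em T.W ℂ a := by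
      have h2 : TT.ten L l a = (show (baseW T.W L).K from l) • em T.W L a := tmul_eq l a
      rw [h2, rlzPsi_apply, psi_smul, psi_em]
    rw [h1, map_smul, mot_gop ha]

lemma xpw_mem' {W : WeilCohomology.{u, 0} ops} (S : Sys W) {v : W.H Z} (hv : v ∈ S.C Z) :
    ∀ m, xpw W v m ∈ S.C (pw Z m)
  | 0 => hv
  | m + 1 => by
    have h := Sys.xp_mem_C S (xpw_mem' S hv m) hv
    exact h

/-- **Tate classes are combinations of Hodge classes** if they are generated by the Tate classes on
one variety under motivated correspondences. -/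
theorem tate_hodge (G : TT.GaloisSystem.{u, 0, w} (baseW T.W L)) (τ : L →+* ℂ)
    (h : GenBy (motPred (baseW T.W L)).sys (TT.tatePred G).sys X P) {n j : ℕ}
    {c : (baseW T.W L).H (pw X n)} (hc : TT.IsTate G (pw X n) j c) :
    c ∈ Submodule.span (baseW T.W L).K
      {x | ∃ c', IsHodge T (pw X n) j c' ∧ em T.W L c' = x} := by
  refine mem_span_hodge τ fun g => ?_
  set R := rlzPsi T (L := L) (g.toRingHom.comp τ) with hR
  have hc0 : c ∈ (TT.tatePred G).sys.C (pw X n) := ClassPred.sp_of (Q := TT.tatePred G) hc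
  have h1 : gop T (pw X n) (R.E (pw X n) c) = R.E (pw X n) c := by
    refine fix_of_rel R (μ := (gop T P).charpoly) (LinearMap.charpoly_monic _).ne_zero hc.1
      fun m => ?_
    obtain ⟨r, hr⟩ := pw_pw X n m
    exact gen_rel R (fun X x hx => mot_fix _ X x hx) (LinearMap.aeval_self_charpoly _)
      (h r _ hr (xpw_mem' _ hc0 m))
  exact pq_of_fix' (R.gr hc.1) h1

end Pool.Agent.H694.ZO
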